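import Pool.Agent.Helper78.SD.Goals

/-!
# Packet CARD
-/

universe u

namespace Pool.Agent.Helper78.SD

open Pool.Agent.Helper10.Width Pool.Agent.Helper72.Width

variable {S : Type u}

theorem mk_sigma_NPP_le :
    Cardinal.mk (Σ n : ℕ, NPP S (n + 1)) ≤ max Cardinal.aleph0 (Cardinal.mk S) := by
  let enc : (Σ n : ℕ, NPP S (n + 1)) → (ℕ × ℕ × ℕ) × List (List S) × List (List S) := fun φ =>
    ((φ.1, φ.2.m, φ.2.k), List.ofFn fun i => List.ofFn (φ.2.a i),
      List.ofFn fun i => List.ofFn (φ.2.b i))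
  have henc : Function.Injective enc := by
    rintro ⟨n, m, k, a, b⟩ ⟨n', m', k', a', b'⟩ h
    simp only [enc, Prod.mk.injEq] at h
    obtain ⟨⟨rfl, rfl, rfl⟩, h1, h2⟩ := h
    have h3 := List.ofFn_injective h1
    have h4 := List.ofFn_injective h2
    have h5 : a = a' := funext fun i => List.ofFn_injective (congrFun h3 i)
    have h6 : b = b' := funext fun i => List.ofFn_injective (congrFun h4 i)
    rw [h5, h6]
  have h1 := Cardinal.mk_le_of_injective (f := enc) henc
  refine h1.trans ?_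
  have hSS : Cardinal.mk (List (List S)) ≤ max Cardinal.aleph0 (Cardinal.mk S) := by
    refine (Cardinal.mk_list_le_max _).trans (max_le (le_max_left _ _) ?_)
    exact Cardinal.mk_list_le_max _
  have hinf : Cardinal.aleph0 ≤ max Cardinal.aleph0 (Cardinal.mk S) := le_max_left _ _
  have h3 : Cardinal.mk (List (List S) × List (List S)) ≤
      max Cardinal.aleph0 (Cardinal.mk S) := by
    rw [Cardinal.mk_prod, Cardinal.lift_id]
    exact (mul_le_mul' hSS hSS).trans (Cardinal.mul_eq_self hinf).le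
  have h4 : Cardinal.lift.{u} (Cardinal.mk (ℕ × ℕ × ℕ)) ≤
      max Cardinal.aleph0 (Cardinal.mk S) := by
    rw [Cardinal.mk_eq_aleph0, Cardinal.lift_aleph0]
    exact hinf
  rw [Cardinal.mk_prod]
  refine (mul_le_mul' h4 ?_).trans (Cardinal.mul_eq_self hinf).le
  rw [Cardinal.lift_uzero]
  exact h3

/-- PACKET CARD. -/
theorem goalCard : GoalCard.{u} := by
  intro S hS
  refine mk_sigma_NPP_le.trans_lt (max_lt ?_ hS)
  have := Cardinal.lift_lt.{0, u}.2 aleph0_lt_covM
  rwa [Cardinal.lift_aleph0] at this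

end Pool.Agent.Helper78.SD
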