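import Pool.Agent.Helper78.SD.Goals

universe u v w x

namespace Pool.Agent.Helper78.SD

open Pool.Agent.Helper10.Width Pool.Agent.Helper72.Width

theorem goalF1a : GoalF1a.{u, v, w} := by
  intro S _ S₀ J B M _ _ n θ q a hq h i
  have h1 := θ.map_sol (Coind.eval (S₀ := S₀) (M := M) 1 (fun a => by rw [one_mul, mul_one]))
    (h (q i))
  rw [NPP.mem_comp]
  convert h1 using 1
  ext i'
  rw [Coind.eval_apply, Coind.smul_apply, B.pr_apply, one_mul]
  by_cases hi : i' = i
  · subst hi
    rw [B.co_el_same, one_smul, Pi.single_eq_same]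
  · rw [B.co_el_ne (fun h => hi (hq h)), zero_smul, Pi.single_eq_of_ne hi]

theorem goalF1b : GoalF1b.{u, v, w} := by
  intro S _ S₀ J B M _ _ n θ q a h j
  have h1 : ∀ i, (fun i' => B.emb j (B.el (q i)) (B.el_comm (q i)) ((Pi.single i a : Fin n → M) i'))
      ∈ θ.sol (Coind S₀ M) := fun i =>
    θ.map_sol (B.emb j (B.el (q i)) (B.el_comm (q i))) ((NPP.mem_comp).1 (h i))
  have h2 := AddSubgroup.sum_mem _ (fun i (_ : i ∈ Finset.univ) => h1 i)
  convert h2 using 1
  ext i'
  rw [Finset.sum_apply, Finset.sum_eq_single i']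
  · rw [Pi.single_eq_same, B.smul_pr]
  · intro i _ hi
    rw [Pi.single_eq_of_ne (Ne.symm hi), map_zero]
  · intro h; exact absurd (Finset.mem_univ _) h

end Pool.Agent.Helper78.SD
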