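import Pool.Agent.Helper78.SD.Goals

/-!
# Packet FILT: a filter deciding everything
-/

universe u v

namespace Pool.Agent.Helper78.SD

open Pool.Agent.Helper10.Width Pool.Agent.Helper72.Width

section dec

variable {L : Type u} [Lattice L] {F : ℕ → Type v}

/-- The finite list `c` of strings decides `E`. -/
def Dec (le : ∀ n, F n → F n → Prop) (ι : ∀ n, Fin (n + 1) → F n → L) (ψ : List Bool → L)
    (Z : List Bool → Set L) (n : ℕ) (E : F n) (c : List (List Bool)) : Prop :=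
  (∀ i, ∀ w ∈ c, ι n i E ∈ Z w) ∨
  (∃ E', le n E E' ∧ (∀ w ∈ c, ι n 0 E' ∈ Z w) ∧ ∃ i, ∃ w ∈ c, Full ψ Z (ι n i E') w) ∨
  ∃ E₀ E₁, le n E E₀ ∧ le n E E₁ ∧
    (∀ w ∈ c, (∀ i, ι n i E₀ ∈ Z w) ∨ (∀ i, ι n i E₁ ∈ Z w)) ∧
    (∃ i, ∃ w ∈ c, Full ψ Z (ι n i E₀) w) ∧ (∃ i, ∃ w ∈ c, Full ψ Z (ι n i E₁) w)

theorem exists_dec [IsModularLattice L] {φ ψ : List Bool → L} {Z : List Bool → Set L}
    (hS : Scheme φ ψ) (hZ : Sys φ ψ Z)
    (hfull : ∀ t d, d ∉ Z t → ∃ v, t <:+ v ∧ Full ψ Z d v)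
    (le : ∀ n, F n → F n → Prop) (ι : ∀ n, Fin (n + 1) → F n → L)
    (join : ∀ n, F n → L → F n) (hle : ∀ n E, le n E E)
    (hjoin : ∀ n E e, ι n 0 E ≤ e → le n E (join n E e) ∧ ι n 0 (join n E e) = e)
    (n : ℕ) (E : F n) (c : List (List Bool)) :
    ∃ c', Ref c c' ∧ Dec le ι ψ Z n E c' := by
  by_cases h : ∃ c₁, Ref c c₁ ∧ ∃ E', le n E E' ∧ (∀ w ∈ c₁, ι n 0 E' ∈ Z w) ∧
      ∃ i, ∃ w ∈ c₁, ι n i E' ∉ Z w
  · obtain ⟨c₁, hc, E', hE, h0, i, w₁, hw₁, hn⟩ := h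
    obtain ⟨v, hv, hf⟩ := hfull w₁ _ hn
    refine ⟨v :: c₁, hc.trans ⟨fun w hw => ⟨w, List.mem_cons_of_mem _ hw, List.suffix_rfl⟩, ?_⟩,
      Or.inr (Or.inl ⟨E', hE, ?_, i, v, List.mem_cons_self, hf⟩)⟩
    · intro w hw
      rcases List.mem_cons.1 hw with rfl | hw
      · exact ⟨w₁, hw₁, hv⟩
      · exact ⟨w, hw, List.suffix_rfl⟩
    · intro w hw
      rcases List.mem_cons.1 hw with rfl | hw
      · exact mono_suffix hZ.mono hv (h0 w₁ hw₁)
      · exact h0 w hw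
  · have hstar : ∀ c₁, Ref c c₁ → ∀ E', le n E E' → (∀ w ∈ c₁, ι n 0 E' ∈ Z w) →
        ∀ i, ∀ w ∈ c₁, ι n i E' ∈ Z w := by
      intro c₁ hc E' hE h0 i w hw
      by_contra hn
      exact h ⟨c₁, hc, E', hE, h0, i, w, hw, hn⟩
    rcases one_leaf hS hZ hfull (ι n 0 E) c with ⟨c', hc', h0⟩ | ⟨e, hde, v, l, hc, hev, hl⟩
    · exact ⟨c', hc', Or.inl (hstar c' hc' E (hle n E) h0)⟩
    · obtain ⟨e₁, hee₁, h1, h2⟩ := hev.split hS hZ true
      obtain ⟨e₂, hee₂, h3, h4⟩ := hev.split hS hZ false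
      obtain ⟨g1, g2⟩ := hjoin n E e₁ (hde.trans hee₁)
      obtain ⟨g3, g4⟩ := hjoin n E e₂ (hde.trans hee₂)
      have hr1 : Ref c ((true :: v) :: l) :=
        hc.trans ((Ref.refl l).cons (List.suffix_cons true v))
      have hr2 : Ref c ((false :: v) :: l) :=
        hc.trans ((Ref.refl l).cons (List.suffix_cons false v))
      have k1 := hstar _ hr1 _ g1 (by
        intro w hw
        rw [g2]
        rcases List.mem_cons.1 hw with rfl | hw
        · exact h1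
        · exact (hZ.filt _).up (hl w hw) hee₁)
      have k2 := hstar _ hr2 _ g3 (by
        intro w hw
        rw [g4]
        rcases List.mem_cons.1 hw with rfl | hw
        · exact h3
        · exact (hZ.filt _).up (hl w hw) hee₂)
      refine ⟨(false :: v) :: (true :: v) :: l, hc.trans (Ref.split _ _), Or.inr (Or.inr
        ⟨join n E e₁, join n E e₂, g1, g3, ?_, ⟨0, false :: v, by simp, ?_⟩,
          ⟨0, true :: v, by simp, ?_⟩⟩)⟩
      · intro w hw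
        rcases List.mem_cons.1 hw with rfl | hw
        · exact Or.inr fun i => k2 i _ List.mem_cons_self
        · exact Or.inl fun i => k1 i _ hw
      · rw [g2]; exact h2
      · rw [g4]; exact h4

end dec

theorem goalFilter : GoalFilter.{u, v} := by
  intro L _ _ φ ψ hS F le ι join hle hjoin hcard
  obtain ⟨Z, hZ, hmax⟩ := exists_max_sys hS
  have hfl : ∀ t d, d ∉ Z t → ∃ v, t <:+ v ∧ Full ψ Z d v := fun t d hd =>
    exists_full hS hZ hmax hd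
  obtain ⟨c, h0, hc, hg⟩ := exists_seq Ref Ref.refl [[]]
    (fun x : (Σ n, F n) => {c | Dec le ι ψ Z x.1 x.2 c})
    (fun x c => exists_dec hS hZ hfl le ι join hle hjoin x.1 x.2 c) hcard
  have hmono : ∀ {n m : ℕ}, n ≤ m → Ref (c n) (c m) := by
    intro n m h
    induction h with
    | refl => exact Ref.refl _
    | step _ ih => exact ih.trans (hc _)
  have hup : ∀ {n m : ℕ} {e : L}, n ≤ m → (∀ w ∈ c n, e ∈ Z w) → ∀ w ∈ c m, e ∈ Z w := by
    intro n m e h he w hw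
    obtain ⟨v, hv, hvw⟩ := (hmono h).2 w hw
    exact mono_suffix hZ.mono hvw (he v hv)
  have hne : ∀ n, ∃ w, w ∈ c n := by
    intro n
    obtain ⟨w, hw, -⟩ := (hmono (Nat.zero_le n)).1 [] (by rw [h0]; simp)
    exact ⟨w, hw⟩
  let p : Set L := {e | ∃ n, ∀ w ∈ c n, e ∈ Z w}
  have hp : IsFilt p := by
    refine ⟨⟨φ [], 0, ?_⟩, ?_, ?_⟩
    · intro w hw; rw [h0] at hw; rw [List.mem_singleton.1 hw]; exact hZ.phi _
    · rintro a b ⟨n, hn⟩ hab
      exact ⟨n, fun w hw => (hZ.filt w).up (hn w hw) hab⟩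
    · rintro a b ⟨n, hn⟩ ⟨m, hm⟩
      exact ⟨max n m, fun w hw => (hZ.filt w).inf (hup (le_max_left _ _) hn w hw)
        (hup (le_max_right _ _) hm w hw)⟩
  have hfull : ∀ {e : L} {n : ℕ} {w : List Bool}, w ∈ c n → Full ψ Z e w → e ∉ p := by
    rintro e n w hw hf ⟨m, hm⟩
    obtain ⟨v, hv, hwv⟩ := (hmono (le_max_left n m)).1 w hw
    exact (hf.mono hS hZ hwv).not_mem hZ (hup (le_max_right n m) hm v hv)
  refine ⟨p, hp, ⟨0, ?_⟩, ?_, ?_⟩
  · intro w hw; rw [h0] at hw; rw [List.mem_singleton.1 hw]; exact hZ.phi _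
  · rintro ⟨n, hn⟩
    obtain ⟨w, hw⟩ := hne n
    exact hZ.psi w ((hZ.filt w).up (hn w hw) (psi_mono hS (List.nil_suffix)))
  · intro n E
    obtain ⟨m, hd⟩ := hg ⟨n, E⟩
    rcases hd with hd | ⟨E', hE, hd0, i, w, hw, hf⟩ |
      ⟨E₀, E₁, hE₀, hE₁, hor, ⟨i, w, hw, hf⟩, ⟨i', w', hw', hf'⟩⟩
    · exact Or.inl fun i => ⟨m, hd i⟩
    · exact Or.inr (Or.inl ⟨E', hE, ⟨m, hd0⟩, i, hfull hw hf⟩)
    · refine Or.inr (Or.inr ⟨E₀, E₁, hE₀, hE₁, ⟨i, hfull hw hf⟩, ⟨i', hfull hw' hf'⟩, ?_⟩)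
      rintro σ ⟨k, hk⟩
      refine ⟨max m k, fun v hv => ?_⟩
      have hσ := hup (le_max_right m k) hk v hv
      obtain ⟨u, hu, huv⟩ := (hmono (le_max_left m k)).2 v hv
      have hall : ∀ E : F n, (∀ i, ι n i E ∈ Z u) → allComp ι n E ∈ Z v := by
        intro E hE
        refine Finset.inf'_induction (p := fun x => x ∈ Z v) _ _
          (fun a ha b hb => (hZ.filt v).inf ha hb) (fun i _ => mono_suffix hZ.mono huv (hE i))
      rcases hor u hu with h | h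
      · exact (hZ.filt v).up ((hZ.filt v).inf hσ (hall _ h)) le_sup_left
      · exact (hZ.filt v).up ((hZ.filt v).inf hσ (hall _ h)) le_sup_right

end Pool.Agent.Helper78.SD
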