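import Pool.Agent.Helper78.SD.Goals

/-!
# PACKET LARGE: the filter of the coinduced module has no large element
-/

universe u v w x

namespace Pool.Agent.Helper78.SD

open Pool.Agent.Helper10.Width Pool.Agent.Helper72.Width

section

variable {S : Type u} [Ring S] {S₀ : Subring S} {T₀ : Set (PP S₀ × PP S₀)}

theorem inClass_of_upT {M : Type v} [AddCommGroup M] [Module S M]
    (h : InClass (upT S₀ T₀) M) : InClass T₀ M := by
  intro q hq
  exact h (up S₀ q.1, up S₀ q.2) ⟨q, hq, rfl⟩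

theorem NImp.apply {m : ℕ} {E E' : NPP S₀ (m + 1)} (h : NImp T₀ m E E')
    {M : Type u} [AddCommGroup M] [Module S₀ M] (hM : InClass T₀ M) {z : Fin (m + 1) → M}
    (hz : z ∈ E.sol M) : z ∈ E'.sol M :=
  h ⟨ModuleCat.of S₀ M, hM⟩ hz

/-- The condition `κ x ∈ e`. -/
def subst1 (e : PP S₀) (κ : S) : PP S where
  n := e.n
  k := e.k
  a := fun r => (e.a r : S) * κ
  b := fun r l => e.b r l

theorem mem_subst1 {e : PP S₀} {κ : S} {N : Type v} [AddCommGroup N]
    [Module S N] {x : N} : x ∈ (subst1 e κ).sol N ↔ κ • x ∈ e.sol N := by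
  have h : ∀ r, ((e.a r : S) * κ) • x = e.a r • (κ • x) := fun r => mul_smul _ _ _
  constructor
  · rintro ⟨y, hy⟩
    exact ⟨y, fun r => by rw [← h]; exact hy r⟩
  · rintro ⟨y, hy⟩
    refine ⟨y, fun r => ?_⟩
    have := hy r
    rw [← h] at this
    exact this

theorem allComp_le (m : ℕ) (E : NPP S₀ (m + 1)) (i : Fin (m + 1)) :
    allComp (ppComp T₀) m E ≤ ppComp T₀ m i E :=
  Finset.inf'_le _ (Finset.mem_univ i)

end

theorem goalNoLarge (h1a : GoalF1a.{u, u, w}) (h1b : GoalF1b.{u, u, w}) (h2 : GoalF2.{u, u, w, u})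
    (h3 : GoalF3.{u, u, w}) (h4 : GoalF4.{u, u}) : GoalNoLarge.{u, w} := by
  intro S _ S₀ J B T₀ p hp hprop hdec N _ _ _ _ _ _ _ hN a ha hC
  have hC₀ : InClass T₀ (Coind S₀ N) := inClass_of_upT hC
  intro x hx
  obtain ⟨φ, rfl⟩ := toL_surjective (upT S₀ T₀) x
  have hφ : ∃ j, (B.pr j a : Coind S₀ N) ∉ φ.sol (Coind S₀ N) := by
    by_contra hcon
    push Not at hcon
    exact hx hcon
  obtain ⟨j₀, hj₀⟩ := hφ
  obtain ⟨n, q, θ, hq, hθ, hi⟩ := h2 S S₀ J B N φ a j₀ hj₀
  -- generalise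
  have key : ∀ (n : ℕ) (χ : PP S) (_ : ∀ j, (B.pr j a : Coind S₀ N) ∈ χ.sol (Coind S₀ N))
      (q : Fin n → J) (_ : Function.Injective q) (θ : NPP S₀ n)
      (_ : ∀ M : Mods (upT S₀ T₀), ∀ z : M.1, z ∈ φ.sol M.1 → z ∈ χ.sol M.1 →
        (fun i => B.el (q i) • z) ∈ θ.sol M.1)
      (_ : ∃ i, a ∉ (θ.comp i).sol N),
      ∃ ψ₁ ψ₂ : ppLattice (upT S₀ T₀), toL (upT S₀ T₀) φ ≤ ψ₁ ∧ toL (upT S₀ T₀) φ ≤ ψ₂ ∧
        ψ₁ ∉ {x : ppLattice (upT S₀ T₀) |
          ∀ j : J, (B.pr j a : Coind S₀ N) ∈ x.1 ⟨ModuleCat.of S (Coind S₀ N), hC⟩} ∧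
        ψ₂ ∉ {x : ppLattice (upT S₀ T₀) |
          ∀ j : J, (B.pr j a : Coind S₀ N) ∈ x.1 ⟨ModuleCat.of S (Coind S₀ N), hC⟩} ∧
        ∀ σ ∈ {x : ppLattice (upT S₀ T₀) |
          ∀ j : J, (B.pr j a : Coind S₀ N) ∈ x.1 ⟨ModuleCat.of S (Coind S₀ N), hC⟩},
          (σ ⊓ ψ₁) ⊔ (σ ⊓ ψ₂) ∈ {x : ppLattice (upT S₀ T₀) |
          ∀ j : J, (B.pr j a : Coind S₀ N) ∈ x.1 ⟨ModuleCat.of S (Coind S₀ N), hC⟩} := by
    intro n
    induction n with
    | zero =>
      intro χ _ q _ θ _ hi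
      obtain ⟨i, _⟩ := hi
      exact i.elim0
    | succ m ih =>
      intro χ hχ q hq θ hθ hi
      obtain ⟨i, hi⟩ := hi
      have hmem : ∀ (E : NPP S₀ (m + 1)) (i : Fin (m + 1)),
          a ∈ (E.comp i).sol N ↔ ppComp T₀ m i E ∈ p := fun E i => ha (E.comp i)
      rcases hdec m θ with hall | ⟨E', hle, h0, i', hi'⟩ | ⟨E₀, E₁, hle₀, hle₁, hn₀, hn₁, hσ⟩
      · exact absurd ((hmem θ i).2 (hall i)) hi
      · -- case β
        have hne : i' ≠ 0 := by
          rintro rfl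
          exact hi' h0
        obtain ⟨i'', rfl⟩ := Fin.exists_succ_eq.2 hne
        refine ih (χ.inf (subst1 (E'.comp 0) (B.el (q 0)))) ?_ (q ∘ Fin.succ)
          (hq.comp (Fin.succ_injective m)) E'.tail ?_ ⟨i'', ?_⟩
        · intro j
          rw [PP.sol_inf]
          refine AddSubgroup.mem_inf.2 ⟨hχ j, ?_⟩
          rw [mem_subst1, B.smul_pr j (B.el (q 0)) (fun a => B.el_comm (q 0) a) a]
          exact PP.map_sol _ _ ((hmem E' 0).2 h0)
        · intro M z hz hz'
          rw [PP.sol_inf] at hz'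
          obtain ⟨hz1, hz2⟩ := AddSubgroup.mem_inf.1 hz'
          rw [mem_subst1, NPP.mem_comp] at hz2
          have hM₀ : InClass T₀ M.1 := inClass_of_upT M.2
          have h5 : (fun i => B.el (q i) • z) ∈ E'.sol M.1 := hle.apply hM₀ (hθ M z hz hz1)
          rw [NPP.mem_tail]
          have h6 := (E'.sol M.1).sub_mem h5 hz2
          have h7 : (fun i => B.el (q i) • z) - Pi.single 0 (B.el (q 0) • z) =
              (Fin.cons 0 (fun i => B.el ((q ∘ Fin.succ) i) • z) : Fin (m + 1) → M.1) := by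
            funext k
            refine Fin.cases ?_ (fun k => ?_) k
            · simp
            · simp
          rw [h7] at h6
          exact h6
        · rw [NPP.comp_tail]
          intro h
          exact hi' ((hmem E' i''.succ).1 h)
      · -- case γ
        obtain ⟨α, hα⟩ := toL_surjective T₀ (allComp (ppComp T₀) m E₀)
        obtain ⟨β, hβ⟩ := toL_surjective T₀ (allComp (ppComp T₀) m E₁)
        have hnot : ∀ E : NPP S₀ (m + 1), NImp T₀ m θ E → (∃ i, ppComp T₀ m i E ∉ p) →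
            toL (upT S₀ T₀) (φ.sup (χ.inf (subst S₀ E (fun i => B.el (q i))))) ∉
            {x : ppLattice (upT S₀ T₀) |
              ∀ j : J, (B.pr j a : Coind S₀ N) ∈ x.1 ⟨ModuleCat.of S (Coind S₀ N), hC⟩} := by
          rintro E hE ⟨i, hi⟩ hcon
          apply hi
          rw [← hmem]
          refine h1a S S₀ J B N (m + 1) E q a hq ?_ i
          intro j
          have h5 : (B.pr j a : Coind S₀ N) ∈
            (φ.sup (χ.inf (subst S₀ E (fun i => B.el (q i))))).sol (Coind S₀ N) := hcon j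
          rw [PP.sol_sup, AddSubgroup.mem_sup] at h5
          obtain ⟨y, hy, v, hv, hyv⟩ := h5
          rw [PP.sol_inf] at hv
          obtain ⟨hv1, hv2⟩ := AddSubgroup.mem_inf.1 hv
          rw [mem_subst] at hv2
          have hy' : y = B.pr j a - v := by rw [← hyv]; abel
          have hyχ : y ∈ χ.sol (Coind S₀ N) := by
            rw [hy']
            exact sub_mem (hχ j) hv1
          have h6 : (fun i => B.el (q i) • y) ∈ θ.sol (Coind S₀ N) :=
            hθ ⟨ModuleCat.of S (Coind S₀ N), hC⟩ y hy hyχ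
          have h7 : (fun i => B.el (q i) • y) ∈ E.sol (Coind S₀ N) := hE.apply hC₀ h6
          have h8 := add_mem h7 hv2
          have h9 : ((fun i => B.el (q i) • y) + fun i => B.el (q i) • v) =
              fun i => B.el (q i) • (B.pr j a : Coind S₀ N) := by
            funext i
            show B.el (q i) • y + B.el (q i) • v = _
            rw [← smul_add, hyv]
          rw [h9] at h8
          exact h8
        have hle : ∀ ψ : PP S, toL (upT S₀ T₀) φ ≤ toL (upT S₀ T₀) (φ.sup ψ) := by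
          intro ψ
          rw [toL_sup]
          exact le_sup_left
        refine ⟨_, _, hle _, hle _, hnot E₀ hle₀ hn₀, hnot E₁ hle₁ hn₁, ?_⟩
        intro σ'' hσ''
        obtain ⟨σ, rfl⟩ := toL_surjective (upT S₀ T₀) σ''
        have hσ0 : ∀ j, (B.pr j a : Coind S₀ N) ∈ σ.sol (Coind S₀ N) := hσ''
        obtain ⟨b, c, habc, hbα, hcβ, hab, hac⟩ := h4 S₀ N a α β (by
          intro τ hτ
          rw [ha] at hτ ⊢
          rw [toL_sup, toL_inf, toL_inf, hα, hβ]
          exact hσ _ hτ)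
        have hb : ∀ i, b ∈ (E₀.comp i).sol N := by
          intro i
          have h5 : toL T₀ α ≤ ppComp T₀ m i E₀ := by rw [hα]; exact allComp_le m E₀ i
          exact h5 ⟨ModuleCat.of S₀ N, hN⟩ hbα
        have hc : ∀ i, c ∈ (E₁.comp i).sol N := by
          intro i
          have h5 : toL T₀ β ≤ ppComp T₀ m i E₁ := by rw [hβ]; exact allComp_le m E₁ i
          exact h5 ⟨ModuleCat.of S₀ N, hN⟩ hcβ
        rw [← toL_inf, ← toL_inf, ← toL_sup]
        intro j
        show (B.pr j a : Coind S₀ N) ∈ PP.sol _ (Coind S₀ N)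
        rw [PP.sol_sup, AddSubgroup.mem_sup]
        have part : ∀ (d : N) (E : NPP S₀ (m + 1)), (∀ τ : PP S₀, a ∈ τ.sol N → d ∈ τ.sol N) →
            (∀ i, d ∈ (E.comp i).sol N) → (B.pr j d : Coind S₀ N) ∈
            (σ.inf (φ.sup (χ.inf (subst S₀ E (fun i => B.el (q i)))))).sol (Coind S₀ N) := by
          intro d E hd hdE
          rw [PP.sol_inf, PP.sol_sup, PP.sol_inf]
          refine AddSubgroup.mem_inf.2 ⟨h3 S S₀ J B N a d hd j σ (hσ0 j), ?_⟩
          refine AddSubgroup.mem_sup_right ?_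
          refine AddSubgroup.mem_inf.2 ⟨h3 S S₀ J B N a d hd j χ (hχ j), ?_⟩
          rw [mem_subst]
          exact h1b S S₀ J B N (m + 1) E q d hdE j
        refine ⟨B.pr j b, part b E₀ hab hb, B.pr j c, part c E₁ hac hc, ?_⟩
        rw [habc, map_add]
  refine key n (PP.top S) (fun j => ?_) q hq θ (fun M z hz _ => hθ M.1 z hz) hi
  rw [PP.sol_top]
  exact AddSubgroup.mem_top _

end Pool.Agent.Helper78.SD
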