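import Pool.Agent.Helper78.SD.Goals2

/-!
# Packet ART1: Artinian local rings are free over small subrings
-/

universe u v w x

namespace Pool.Agent.Helper78.SD.Art

open Pool.Agent.Helper10.Width Pool.Agent.Helper72.Width Pool.Agent.Helper78.SD

theorem sm_of_finite {X : Type w} {s : Set X} (hs : s.Finite) : Sm s :=
  hs.lt_aleph0.trans aleph0_lt_lift

section

variable {C : Type v} [CommRing C] [IsLocalRing C]


/-- A finite family in `(IsLocalRing.maximalIdeal C) ^ i` which is a basis modulo `(IsLocalRing.maximalIdeal C) ^ (i + 1)`. -/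
theorem exists_family [IsNoetherianRing C] (i : ℕ) : ∃ V : Finset C,
    (∀ x ∈ V, x ∈ (IsLocalRing.maximalIdeal C) ^ i) ∧
    (∀ a ∈ (IsLocalRing.maximalIdeal C) ^ i, ∃ c : C → C, a - ∑ x ∈ V, c x * x ∈ (IsLocalRing.maximalIdeal C) ^ (i + 1)) ∧
    (∀ c : C → C, ∑ x ∈ V, c x * x ∈ (IsLocalRing.maximalIdeal C) ^ (i + 1) → ∀ x ∈ V, c x ∈ (IsLocalRing.maximalIdeal C)) := by
  classical
  have hex : ∃ n : ℕ, ∃ V : Finset C, V.card = n ∧ (∀ x ∈ V, x ∈ (IsLocalRing.maximalIdeal C) ^ i) ∧
      (IsLocalRing.maximalIdeal C) ^ i ≤ Submodule.span C (V : Set C) ⊔ (IsLocalRing.maximalIdeal C) ^ (i + 1) := by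
    obtain ⟨V, hV⟩ := (isNoetherianRing_iff_ideal_fg C).1 inferInstance ((IsLocalRing.maximalIdeal C) ^ i)
    refine ⟨V.card, V, rfl, fun x hx => ?_, ?_⟩
    · rw [← hV]; exact Submodule.subset_span hx
    · rw [← hV]; exact le_sup_left
  obtain ⟨V, hVc, hV1, hV2⟩ := Nat.find_spec hex
  refine ⟨V, hV1, fun a ha => ?_, fun c hc x hx => ?_⟩
  · obtain ⟨s, hs, t, ht, hst⟩ := Submodule.mem_sup.1 (hV2 ha)
    obtain ⟨c, -, hc⟩ := Submodule.mem_span_finset.1 hs
    refine ⟨c, ?_⟩
    have : ∑ x ∈ V, c x * x = s := by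
      rw [← hc]; rfl
    rw [this, ← hst, add_sub_cancel_left]
    exact ht
  · by_contra hcx
    have hu : IsUnit (c x) := by
      by_contra hn
      exact hcx ((IsLocalRing.mem_maximalIdeal _).2 hn)
    obtain ⟨u, hu'⟩ := hu
    have hlt : (V.erase x).card < V.card := Finset.card_erase_lt_of_mem hx
    rw [hVc] at hlt
    refine Nat.find_min hex hlt ⟨V.erase x, rfl, fun y hy => hV1 y (Finset.mem_of_mem_erase hy), ?_⟩
    refine hV2.trans (sup_le ?_ le_sup_right)
    rw [Submodule.span_le]
    intro y hy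
    by_cases hyx : y = x
    · subst hyx
      rw [← Finset.add_sum_erase V _ hx] at hc
      have e : y = ((u⁻¹ : Cˣ) : C) * (c y * y + ∑ z ∈ V.erase y, c z * z) -
          ((u⁻¹ : Cˣ) : C) * ∑ z ∈ V.erase y, c z * z := by
        rw [← hu', mul_add, ← mul_assoc, Units.inv_mul]
        ring
      have e2 : ((u⁻¹ : Cˣ) : C) * (c y * y + ∑ z ∈ V.erase y, c z * z) -
          ((u⁻¹ : Cˣ) : C) * ∑ z ∈ V.erase y, c z * z ∈
          Submodule.span C ((V.erase y : Finset C) : Set C) ⊔
            (IsLocalRing.maximalIdeal C) ^ (i + 1) := by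
        refine Submodule.sub_mem _ ?_ ?_
        · exact Submodule.mem_sup_right (Ideal.mul_mem_left _ _ hc)
        · refine Submodule.mem_sup_left (Ideal.mul_mem_left _ _ ?_)
          refine Submodule.sum_mem _ fun z hz => ?_
          exact Ideal.mul_mem_left _ _ (Submodule.subset_span hz)
      rw [← e] at e2
      exact e2
    · exact Submodule.mem_sup_left (Submodule.subset_span
        (Finset.mem_coe.2 (Finset.mem_erase.2 ⟨hyx, hy⟩)))

end

theorem goalArt1 (h : GoalClose.{v}) : GoalArt1.{v} := by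
  intro C _ _ _ D hD
  classical
  have hnil : ∃ N : ℕ, (IsLocalRing.maximalIdeal C) ^ N = ⊥ := by
    obtain ⟨N, hN⟩ := IsArtinianRing.isNilpotent_jacobson_bot (R := C)
    refine ⟨N, ?_⟩
    rw [IsLocalRing.jacobson_eq_maximalIdeal ⊥ bot_ne_top] at hN
    exact hN
  obtain ⟨N, hN⟩ := hnil
  choose V hV1 hV2 hV3 using fun i : ℕ => exists_family (C := C) i
  choose! g hg using hV2
  set inv : C → C := fun a => if hu : IsUnit a then ((hu.unit⁻¹ : Cˣ) : C) else 0 with hinv
  have hcount : Countable (Option (Σ i : Fin N, (V i))) := inferInstance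
  obtain ⟨e, he⟩ := exists_surjective_nat (Option (Σ i : Fin N, (V i)))
  set D' : Set C := D ∪ ⋃ i : Fin N, (V i : Set C) with hD'
  have hSm : Sm D' := hD.union (sm_of_finite (Set.finite_iUnion fun i => Finset.finite_toSet _))
  obtain ⟨C₀, hC₀, hDC, hcl⟩ := h C
    (fun n => match e n with
      | none => inv
      | some p => fun a => g p.1 a p.2) D' hSm
  have hinvC : ∀ x ∈ C₀, inv x ∈ C₀ := by
    intro x hx
    obtain ⟨n, hn⟩ := he none
    have := hcl n x hx
    rw [hn] at this
    exact this
  have hgC : ∀ i < N, ∀ y ∈ V i, ∀ x ∈ C₀, g i x y ∈ C₀ := by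
    intro i hi y hy x hx
    obtain ⟨n, hn⟩ := he (some ⟨⟨i, hi⟩, ⟨y, hy⟩⟩)
    have := hcl n x hx
    rw [hn] at this
    exact this
  have hVC : ∀ i < N, ∀ y ∈ V i, y ∈ C₀ := by
    intro i hi y hy
    exact hDC (Or.inr (Set.mem_iUnion.2 ⟨⟨i, hi⟩, hy⟩))
  -- residue fields
  set π := IsLocalRing.residue C with hπ
  have hπ0 : ∀ x, π x = 0 ↔ x ∈ IsLocalRing.maximalIdeal C := fun x =>
    IsLocalRing.residue_eq_zero_iff x
  let k₀ : Subfield (IsLocalRing.ResidueField C) :=
    { C₀.map π with
      inv_mem' := by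
        rintro _ ⟨x, hx, rfl⟩
        by_cases hu : IsUnit x
        · refine ⟨inv x, hinvC x hx, ?_⟩
          have h1 : π x * π (inv x) = 1 := by
            rw [← map_mul, hinv]
            simp only [dif_pos hu]
            rw [IsUnit.mul_val_inv, map_one]
          exact eq_inv_of_mul_eq_one_right h1
        · have h0 : π x = 0 := (hπ0 x).2 ((IsLocalRing.mem_maximalIdeal x).2 hu)
          rw [h0, inv_zero]
          exact ⟨0, C₀.zero_mem, map_zero _⟩ }
  have hk₀ : ∀ x ∈ C₀, π x ∈ k₀ := fun x hx => ⟨x, hx, rfl⟩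
  set b := Module.Basis.ofVectorSpace k₀ (IsLocalRing.ResidueField C) with hb
  choose c hc using fun j : Module.Basis.ofVectorSpaceIndex k₀ (IsLocalRing.ResidueField C) =>
    IsLocalRing.residue_surjective (b j)
  refine ⟨C₀, hC₀, fun x hx => hDC (Or.inl hx),
    Module.Basis.ofVectorSpaceIndex k₀ (IsLocalRing.ResidueField C), ?_, ?_⟩
  · by_contra hne
    rw [not_nonempty_iff] at hne
    have : Subsingleton (IsLocalRing.ResidueField C) := b.repr.toEquiv.subsingleton
    exact not_subsingleton (IsLocalRing.ResidueField C) this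
  have hli : LinearIndependent C₀ c := by
    rw [linearIndependent_iff']
    intro s a ha
    have key : ∀ i ≤ N, ∀ j ∈ s, ((a j : C₀) : C) ∈ (IsLocalRing.maximalIdeal C) ^ i := by
      intro i
      induction i with
      | zero =>
        intro _ j _
        rw [pow_zero, Ideal.one_eq_top]
        trivial
      | succ i ih =>
        intro hi j hj
        have hi' : i < N := hi
        have ih' := ih hi'.le
        have h1 : ∀ j ∈ s, ((a j : C₀) : C) - ∑ x ∈ V i, g i (a j) x * x ∈
            (IsLocalRing.maximalIdeal C) ^ (i + 1) := fun j hj => hg i _ (ih' j hj)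
        have h2 : ∑ x ∈ V i, (∑ j ∈ s, g i (a j) x * c j) * x ∈
            (IsLocalRing.maximalIdeal C) ^ (i + 1) := by
          have h3 : ∑ x ∈ V i, (∑ j ∈ s, g i (a j) x * c j) * x =
              ∑ j ∈ s, ((a j : C₀) : C) * c j -
                ∑ j ∈ s, (((a j : C₀) : C) - ∑ x ∈ V i, g i (a j) x * x) * c j := by
            rw [← Finset.sum_sub_distrib]
            simp_rw [Finset.sum_mul]
            rw [Finset.sum_comm]
            refine Finset.sum_congr rfl fun j _ => ?_
            rw [sub_mul, sub_sub_cancel, Finset.sum_mul]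
            refine Finset.sum_congr rfl fun x _ => ?_
            ring
          have h4 : ∑ j ∈ s, ((a j : C₀) : C) * c j = 0 := ha
          rw [h3, h4, zero_sub]
          refine neg_mem (Submodule.sum_mem _ fun j hj => ?_)
          exact Ideal.mul_mem_right _ _ (h1 j hj)
        have h5 := hV3 i (fun x => ∑ j ∈ s, g i (a j) x * c j) h2
        have h6 : ∀ x ∈ V i, ∀ j ∈ s, g i (a j) x ∈ IsLocalRing.maximalIdeal C := by
          intro x hx j hj
          have h7 := (hπ0 _).2 (h5 x hx)
          rw [map_sum] at h7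
          have h8 := linearIndependent_iff'.1 b.linearIndependent s
            (fun j => ⟨π (g i (a j) x), hk₀ _ (hgC i hi' x hx _ (a j).2)⟩) (by
              rw [← h7]
              refine Finset.sum_congr rfl fun j _ => ?_
              rw [map_mul, hc]
              rfl) j hj
          rw [← hπ0]
          exact congrArg Subtype.val h8
        have h9 : ((a j : C₀) : C) = (((a j : C₀) : C) - ∑ x ∈ V i, g i (a j) x * x) +
            ∑ x ∈ V i, g i (a j) x * x := by ring
        rw [h9]
        refine add_mem (h1 j hj) (Submodule.sum_mem _ fun x hx => ?_)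
        rw [pow_succ']
        exact Ideal.mul_mem_mul (h6 x hx j hj) (hV1 i x hx)
    intro j hj
    have := key N le_rfl j hj
    rw [hN] at this
    exact Subtype.ext ((Submodule.mem_bot _).1 this)
  set M : Submodule C₀ C := Submodule.span C₀ (Set.range c) with hM
  have hlift : ∀ t : C, ∃ z ∈ M, t - z ∈ IsLocalRing.maximalIdeal C := by
    intro t
    have h1 := b.linearCombination_repr (π t)
    rw [Finsupp.linearCombination_apply, Finsupp.sum] at h1
    have h2 : ∀ j, ∃ a ∈ C₀, π a = ((b.repr (π t) j : k₀) : IsLocalRing.ResidueField C) :=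
      fun j => (b.repr (π t) j).2
    choose a ha1 ha2 using h2
    refine ⟨∑ j ∈ (b.repr (π t)).support, (⟨a j, ha1 j⟩ : C₀) • c j, ?_, ?_⟩
    · exact Submodule.sum_mem _ fun j _ => Submodule.smul_mem _ _
        (Submodule.subset_span ⟨j, rfl⟩)
    · rw [← hπ0, map_sub, sub_eq_zero, map_sum]
      conv_lhs => rw [← h1]
      refine Finset.sum_congr rfl fun j _ => ?_
      have e1 : (⟨a j, ha1 j⟩ : C₀) • c j = a j * c j := rfl
      rw [e1, map_mul, ha2, hc]
      rfl
  have hsp : ∀ n i : ℕ, i + n = N → ∀ x ∈ (IsLocalRing.maximalIdeal C) ^ i, x ∈ M := by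
    intro n
    induction n with
    | zero =>
      intro i hi x hx
      rw [add_zero] at hi
      rw [hi, hN] at hx
      rw [(Submodule.mem_bot _).1 hx]
      exact zero_mem _
    | succ n ih =>
      intro i hi x hx
      have hi' : i < N := by omega
      choose z hz1 hz2 using hlift
      have h1 : x - ∑ y ∈ V i, z (g i x y) * y ∈ (IsLocalRing.maximalIdeal C) ^ (i + 1) := by
        have e1 : x - ∑ y ∈ V i, z (g i x y) * y = (x - ∑ y ∈ V i, g i x y * y) +
            ∑ y ∈ V i, (g i x y - z (g i x y)) * y := by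
          simp_rw [sub_mul]
          rw [Finset.sum_sub_distrib]
          ring
        rw [e1]
        refine add_mem (hg i x hx) (Submodule.sum_mem _ fun y hy => ?_)
        rw [pow_succ']
        exact Ideal.mul_mem_mul (hz2 _) (hV1 i y hy)
      have h2 := ih (i + 1) (by omega) _ h1
      have h3 : ∑ y ∈ V i, z (g i x y) * y ∈ M := by
        refine Submodule.sum_mem _ fun y hy => ?_
        have e1 : z (g i x y) * y = (⟨y, hVC i hi' y hy⟩ : C₀) • z (g i x y) := by
          rw [mul_comm]; rfl
        rw [e1]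
        exact Submodule.smul_mem _ _ (hz1 _)
      have := add_mem h2 h3
      rwa [sub_add_cancel] at this
  have hsp' : ⊤ ≤ Submodule.span C₀ (Set.range c) := by
    intro x _
    exact hsp N 0 (by omega) x (by rw [pow_zero, Ideal.one_eq_top]; trivial)
  exact ⟨Module.Basis.mk hli hsp'⟩

end Pool.Agent.Helper78.SD.Art
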