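import Pool.Agent.Helper78.SD.Goals2

universe u v w x

namespace Pool.Agent.Helper78.SD

open Pool.Agent.Helper10.Width Pool.Agent.Helper72.Width

theorem mk_closure_le {C : Type v} [CommRing C] (D : Set C) {κ : Cardinal.{v}}
    (hκ : Cardinal.aleph0 ≤ κ) (hD : Cardinal.mk D ≤ κ) :
    Cardinal.mk (Subring.closure D) ≤ κ := by
  have h1 := Algebra.lift_cardinalMk_adjoin_le ℤ D
  have h2 : Cardinal.mk (Algebra.adjoin ℤ D) = Cardinal.mk (Subring.closure D) := by
    rw [Algebra.adjoin_int]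
    rfl
  rw [h2] at h1
  have h3 : Cardinal.lift.{0} (Cardinal.mk (Subring.closure D)) ≤ κ := by
    refine h1.trans (sup_le (sup_le ?_ ?_) hκ)
    · rw [Cardinal.mk_int, Cardinal.lift_aleph0]
      exact hκ
    · rw [Cardinal.lift_uzero]
      exact hD
  rwa [Cardinal.lift_uzero] at h3

theorem mk_iUnion_nat_le {C : Type v} (f : ℕ → Set C) {κ : Cardinal.{v}}
    (hκ : Cardinal.aleph0 ≤ κ) (h : ∀ n, Cardinal.mk ↥(f n) ≤ κ) :
    Cardinal.mk ↥(⋃ n, f n) ≤ κ := by
  have h1 := Cardinal.mk_iUnion_le_lift f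
  rw [Cardinal.lift_uzero, Cardinal.mk_nat, Cardinal.lift_aleph0] at h1
  refine h1.trans (Cardinal.mul_le_of_le hκ hκ (ciSup_le' fun n => ?_))
  rw [Cardinal.lift_uzero]
  exact h n

theorem goalClose : GoalClose.{v} := by
  classical
  intro C _ F D hD
  let κ : Cardinal.{v} := max Cardinal.aleph0 (Cardinal.mk D)
  have hκ : Cardinal.aleph0 ≤ κ := le_max_left _ _
  have hκ' : κ < Cardinal.lift.{v} covM := max_lt aleph0_lt_lift hD
  let st : Set C → Set C := fun X => (Subring.closure X : Set C) ∪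
    ⋃ m : ℕ, F m '' (Subring.closure X : Set C)
  let X : ℕ → Set C := fun n => Nat.rec (motive := fun _ => Set C) D (fun _ Y => st Y) n
  have hX0 : X 0 = D := rfl
  have hXs : ∀ n, X (n + 1) = st (X n) := fun n => rfl
  have hcard : ∀ n, Cardinal.mk ↥(X n) ≤ κ := by
    intro n
    induction n with
    | zero => exact le_max_right _ _
    | succ n ih =>
      rw [hXs]
      have h1 := mk_closure_le (X n) hκ ih
      refine (Cardinal.mk_union_le _ _).trans (Cardinal.add_le_of_le hκ h1 ?_)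
      exact mk_iUnion_nat_le _ hκ fun m => Cardinal.mk_image_le.trans h1
  have hsub : ∀ n, (Subring.closure (X n) : Set C) ⊆ X (n + 1) := fun n =>
    Set.subset_union_left
  have hmono : ∀ n, X n ⊆ X (n + 1) := fun n => Subring.subset_closure.trans (hsub n)
  have hmono' : Monotone X := monotone_nat_of_le_succ hmono
  have hdir : Directed (· ≤ ·) fun n => Subring.closure (X n) :=
    (fun i j => ⟨max i j, Subring.closure_mono (hmono' (le_max_left _ _)),
      Subring.closure_mono (hmono' (le_max_right _ _))⟩)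
  let C₀ : Subring C := ⨆ n, Subring.closure (X n)
  have hmem : ∀ x, x ∈ C₀ ↔ ∃ n, x ∈ Subring.closure (X n) := fun x =>
    Subring.mem_iSup_of_directed hdir
  refine ⟨C₀, ?_, ?_, ?_⟩
  · refine lt_of_le_of_lt ?_ hκ'
    have h1 : (C₀ : Set C) ⊆ ⋃ n, X n := by
      intro x hx
      obtain ⟨n, hn⟩ := (hmem x).1 hx
      exact Set.mem_iUnion.2 ⟨n + 1, hsub n hn⟩
    refine (Cardinal.mk_le_mk_of_subset h1).trans ?_
    exact mk_iUnion_nat_le _ hκ hcard
  · intro x hx
    exact (hmem x).2 ⟨0, Subring.subset_closure hx⟩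
  · intro m x hx
    obtain ⟨n, hn⟩ := (hmem x).1 hx
    refine (hmem _).2 ⟨n + 1, Subring.subset_closure ?_⟩
    rw [hXs]
    exact Or.inr (Set.mem_iUnion.2 ⟨m, x, hn, rfl⟩)

end Pool.Agent.Helper78.SD
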