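import Pool.Agent.Helper72.Width.Assembly

/-!
# Positive primitive conditions with several free variables, coinduced modules
-/

universe u v w

namespace Pool.Agent.Helper78.SD

open Pool.Agent.Helper10.Width Pool.Agent.Helper72.Width

/-- A pp condition in `n` free variables: `∃ y, ∀ r, ∑ i, a r i • x i + ∑ l, b r l • y l = 0`. -/
structure NPP (S : Type u) (n : ℕ) where
  /-- number of equations -/
  m : ℕ
  /-- number of bound variables -/
  k : ℕ
  /-- coefficients of the free variables -/
  a : Fin m → Fin n → S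
  /-- coefficients of the bound variables -/
  b : Fin m → Fin k → S

section basics

variable {S : Type u} [Ring S] {n : ℕ}

/-- The solutions of a pp condition in `n` variables. -/
def NPP.sol (θ : NPP S n) (M : Type v) [AddCommGroup M] [Module S M] :
    AddSubgroup (Fin n → M) where
  carrier := {x | ∃ y : Fin θ.k → M, ∀ r, ∑ i, θ.a r i • x i + ∑ l, θ.b r l • y l = 0}
  zero_mem' := ⟨0, fun r => by simp⟩
  add_mem' := by
    rintro x x' ⟨y, hy⟩ ⟨y', hy'⟩
    refine ⟨y + y', fun r => ?_⟩
    have e : ∑ i, θ.a r i • (x + x') i + ∑ l, θ.b r l • (y + y') l =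
        (∑ i, θ.a r i • x i + ∑ l, θ.b r l • y l) +
          (∑ i, θ.a r i • x' i + ∑ l, θ.b r l • y' l) := by
      simp only [Pi.add_apply, smul_add, Finset.sum_add_distrib]
      abel
    rw [e, hy, hy', add_zero]
  neg_mem' := by
    rintro x ⟨y, hy⟩
    refine ⟨-y, fun r => ?_⟩
    have e : ∑ i, θ.a r i • (-x) i + ∑ l, θ.b r l • (-y) l =
        -(∑ i, θ.a r i • x i + ∑ l, θ.b r l • y l) := by
      simp only [Pi.neg_apply, smul_neg, Finset.sum_neg_distrib]
      abel
    rw [e, hy, neg_zero]

theorem NPP.mem_sol {θ : NPP S n} {M : Type v} [AddCommGroup M] [Module S M] {x : Fin n → M} :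
    x ∈ θ.sol M ↔ ∃ y : Fin θ.k → M, ∀ r, ∑ i, θ.a r i • x i + ∑ l, θ.b r l • y l = 0 := Iff.rfl

/-- The pp condition given by a finite system with arbitrary finite index types. -/
noncomputable def NPP.mk' {ι : Type v} {κ : Type w} [Fintype ι] [Fintype κ]
    (a : ι → Fin n → S) (b : ι → κ → S) : NPP S n where
  m := Fintype.card ι
  k := Fintype.card κ
  a := fun i => a ((Fintype.equivFin ι).symm i)
  b := fun i j => b ((Fintype.equivFin ι).symm i) ((Fintype.equivFin κ).symm j)

theorem NPP.mem_mk' {ι : Type v} {κ : Type w} [Fintype ι] [Fintype κ]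
    (a : ι → Fin n → S) (b : ι → κ → S) {M : Type*} [AddCommGroup M] [Module S M]
    {x : Fin n → M} :
    x ∈ (NPP.mk' a b).sol M ↔ ∃ y : κ → M, ∀ r, ∑ i, a r i • x i + ∑ l, b r l • y l = 0 := by
  rw [NPP.mem_sol]
  constructor
  · rintro ⟨y, hy⟩
    refine ⟨fun j => y (Fintype.equivFin κ j), fun i => ?_⟩
    have h := hy (Fintype.equivFin ι i)
    simp only [NPP.mk', Equiv.symm_apply_apply] at h
    rw [← h]
    congr 1
    exact (Fintype.sum_equiv (Fintype.equivFin κ) _ _ (fun j => by simp))
  · rintro ⟨y, hy⟩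
    refine ⟨fun j => y ((Fintype.equivFin κ).symm j), fun i => ?_⟩
    have h := hy ((Fintype.equivFin ι).symm i)
    simp only [NPP.mk']
    rw [← h]
    congr 1
    exact (Fintype.sum_equiv (Fintype.equivFin κ).symm _ _ (fun j => by simp))

/-- Homomorphisms preserve pp conditions. -/
theorem NPP.map_sol (θ : NPP S n) {M : Type v} {N : Type w} [AddCommGroup M] [Module S M]
    [AddCommGroup N] [Module S N] (f : M →ₗ[S] N) {x : Fin n → M} (hx : x ∈ θ.sol M) :
    (fun i => f (x i)) ∈ θ.sol N := by
  obtain ⟨y, hy⟩ := hx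
  refine ⟨fun j => f (y j), fun r => ?_⟩
  have := congrArg f (hy r)
  simpa [map_add, map_sum] using this

/-- The condition `θ(0, …, x, …, 0)`, with `x` in the place `i`. -/
def NPP.comp (i : Fin n) (θ : NPP S n) : PP S where
  n := θ.m
  k := θ.k
  a := fun r => θ.a r i
  b := θ.b

theorem NPP.mem_comp {i : Fin n} {θ : NPP S n} {M : Type v} [AddCommGroup M] [Module S M]
    {x : M} : x ∈ (θ.comp i).sol M ↔ Pi.single i x ∈ θ.sol M := by
  have h : ∀ r, ∑ i', θ.a r i' • (Pi.single i x : Fin n → M) i' = θ.a r i • x := by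
    intro r
    rw [Finset.sum_eq_single i]
    · rw [Pi.single_eq_same]
    · intro j _ hj
      rw [Pi.single_eq_of_ne hj, smul_zero]
    · intro h; exact absurd (Finset.mem_univ i) h
  constructor
  · rintro ⟨y, hy⟩
    exact ⟨y, fun r => by rw [h]; exact hy r⟩
  · rintro ⟨y, hy⟩
    exact ⟨y, fun r => by have := hy r; rw [h] at this; exact this⟩

/-- The condition `θ(0, x_1, …, x_n)`. -/
def NPP.tail (θ : NPP S (n + 1)) : NPP S n where
  m := θ.m
  k := θ.k
  a := fun r i => θ.a r i.succ
  b := θ.b

theorem NPP.mem_tail {θ : NPP S (n + 1)} {M : Type v} [AddCommGroup M] [Module S M]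
    {x : Fin n → M} : x ∈ θ.tail.sol M ↔ (Fin.cons 0 x : Fin (n + 1) → M) ∈ θ.sol M := by
  have h : ∀ r, ∑ i', θ.a r i' • (Fin.cons 0 x : Fin (n + 1) → M) i' =
      ∑ i, θ.a r i.succ • x i := by
    intro r
    rw [Fin.sum_univ_succ]
    simp
  constructor
  · rintro ⟨y, hy⟩
    exact ⟨y, fun r => by rw [h]; exact hy r⟩
  · rintro ⟨y, hy⟩
    exact ⟨y, fun r => by have := hy r; rw [h] at this; exact this⟩

theorem NPP.comp_tail (i : Fin n) (θ : NPP S (n + 1)) : θ.tail.comp i = θ.comp i.succ := rfl

/-- The condition `θ(x) + (e × 0 × … × 0)`. -/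
noncomputable def NPP.join (θ : NPP S (n + 1)) (e : PP S) : NPP S (n + 1) :=
  NPP.mk' (ι := Fin θ.m ⊕ Fin e.n) (κ := Unit ⊕ (Fin θ.k ⊕ Fin e.k))
    (Sum.elim θ.a (fun _ _ => 0))
    (Sum.elim (fun r => Sum.elim (fun _ => -θ.a r 0) (Sum.elim (θ.b r) (fun _ => 0)))
      (fun r => Sum.elim (fun _ => e.a r) (Sum.elim (fun _ => 0) (e.b r))))

theorem NPP.mem_join {θ : NPP S (n + 1)} {e : PP S} {M : Type v} [AddCommGroup M] [Module S M]
    {x : Fin (n + 1) → M} :
    x ∈ (θ.join e).sol M ↔ ∃ u ∈ e.sol M, x - Pi.single 0 u ∈ θ.sol M := by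
  have h : ∀ (u : M) (r), ∑ i', θ.a r i' • (x - Pi.single 0 u : Fin (n + 1) → M) i' =
      ∑ i, θ.a r i • x i - θ.a r 0 • u := by
    intro u r
    simp only [Pi.sub_apply, smul_sub, Finset.sum_sub_distrib]
    congr 1
    rw [Finset.sum_eq_single 0]
    · rw [Pi.single_eq_same]
    · intro j _ hj
      rw [Pi.single_eq_of_ne hj, smul_zero]
    · intro h; exact absurd (Finset.mem_univ _) h
  rw [NPP.join, NPP.mem_mk']
  constructor
  · rintro ⟨y, hy⟩
    refine ⟨y (Sum.inl ()), ⟨fun j => y (Sum.inr (Sum.inr j)), fun r => ?_⟩,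
      ⟨fun j => y (Sum.inr (Sum.inl j)), fun r => ?_⟩⟩
    · have := hy (Sum.inr r)
      simpa using this
    · have := hy (Sum.inl r)
      rw [h]
      simp only [Sum.elim_inl, Fintype.sum_sum_type, Sum.elim_inr, Finset.univ_unique,
        PUnit.default_eq_unit, Finset.sum_singleton, zero_smul, Finset.sum_const_zero,
        add_zero] at this
      rw [← this, neg_smul]
      abel
  · rintro ⟨u, ⟨y, hy⟩, y', hy'⟩
    refine ⟨Sum.elim (fun _ => u) (Sum.elim y' y), ?_⟩
    rintro (r | r)
    · have := hy' r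
      rw [h] at this
      simp only [Sum.elim_inl, Fintype.sum_sum_type, Sum.elim_inr, Finset.univ_unique,
        PUnit.default_eq_unit, Finset.sum_singleton, zero_smul, Finset.sum_const_zero,
        add_zero]
      rw [← this, neg_smul]
      abel
    · simpa using hy r

theorem NPP.sol_le_join (θ : NPP S (n + 1)) (e : PP S) (M : Type v) [AddCommGroup M]
    [Module S M] : θ.sol M ≤ (θ.join e).sol M := by
  intro x hx
  rw [NPP.mem_join]
  exact ⟨0, zero_mem _, by simpa using hx⟩

theorem NPP.comp_join (θ : NPP S (n + 1)) (e : PP S) (M : Type v) [AddCommGroup M]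
    [Module S M] : ((θ.join e).comp 0).sol M = (θ.comp 0).sol M ⊔ e.sol M := by
  ext x
  rw [NPP.mem_comp, NPP.mem_join, AddSubgroup.mem_sup]
  constructor
  · rintro ⟨u, hu, hx⟩
    refine ⟨x - u, ?_, u, hu, by abel⟩
    rw [NPP.mem_comp, Pi.single_sub]
    exact hx
  · rintro ⟨x', hx', u, hu, rfl⟩
    refine ⟨u, hu, ?_⟩
    rw [← Pi.single_sub, add_sub_cancel_right, ← NPP.mem_comp]
    exact hx'

end basics

section subring

variable {S : Type u} [Ring S] (S₀ : Subring S)

/-- A pp condition over a subring, considered as a pp condition over the ring. -/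
def up (θ : PP S₀) : PP S where
  n := θ.n
  k := θ.k
  a := fun r => θ.a r
  b := fun r l => θ.b r l

theorem mem_up {θ : PP S₀} {N : Type v} [AddCommGroup N] [Module S N] {x : N} :
    x ∈ (up S₀ θ).sol N ↔ x ∈ θ.sol N := Iff.rfl

theorem sol_up (θ : PP S₀) (N : Type v) [AddCommGroup N] [Module S N] :
    (up S₀ θ).sol N = θ.sol N := rfl

/-- The set of pairs of pp conditions over the ring given by a set of pairs of pp conditions over
a subring. -/
def upT (T₀ : Set (PP S₀ × PP S₀)) : Set (PP S × PP S) :=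
  (fun q => (up S₀ q.1, up S₀ q.2)) '' T₀

/-- The condition `θ(c_1 x, …, c_n x)` on `x`; `θ` is a pp condition over the subring. -/
def subst {n : ℕ} (θ : NPP S₀ n) (c : Fin n → S) : PP S where
  n := θ.m
  k := θ.k
  a := fun r => ∑ i, (θ.a r i : S) * c i
  b := fun r l => θ.b r l

theorem mem_subst {n : ℕ} {θ : NPP S₀ n} {c : Fin n → S} {N : Type v} [AddCommGroup N]
    [Module S N] {x : N} : x ∈ (subst S₀ θ c).sol N ↔ (fun i => c i • x) ∈ θ.sol N := by
  have h : ∀ r, (∑ i, (θ.a r i : S) * c i) • x = ∑ i, θ.a r i • (c i • x) := by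
    intro r
    rw [Finset.sum_smul]
    exact Finset.sum_congr rfl fun i _ => mul_smul _ _ _
  constructor
  · rintro ⟨y, hy⟩
    exact ⟨y, fun r => by rw [← h]; exact hy r⟩
  · rintro ⟨y, hy⟩
    refine ⟨y, fun r => ?_⟩
    have := hy r
    rw [← h] at this
    exact this

/-- The coinduced module `Hom_{S₀}(S, M)`. -/
def Coind (M : Type v) [AddCommGroup M] [Module S₀ M] : Type (max u v) := S →ₗ[S₀] M

section coind

variable {S₀} {M : Type v} [AddCommGroup M] [Module S₀ M]

noncomputable instance : AddCommGroup (Coind S₀ M) :=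
  inferInstanceAs (AddCommGroup (S →ₗ[S₀] M))

instance : FunLike (Coind S₀ M) S M := inferInstanceAs (FunLike (S →ₗ[S₀] M) S M)

instance : AddMonoidHomClass (Coind S₀ M) S M :=
  inferInstanceAs (AddMonoidHomClass (S →ₗ[S₀] M) S M)

@[ext] theorem Coind.ext {f g : Coind S₀ M} (h : ∀ t, f t = g t) : f = g := DFunLike.ext _ _ h

@[simp] theorem Coind.add_apply (f g : Coind S₀ M) (t : S) : (f + g) t = f t + g t := rfl

@[simp] theorem Coind.zero_apply (t : S) : (0 : Coind S₀ M) t = 0 := rfl

@[simp] theorem Coind.neg_apply (f : Coind S₀ M) (t : S) : (-f) t = -(f t) := rfl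

theorem Coind.map_mul (f : Coind S₀ M) (a : S₀) (t : S) : f (a * t) = a • f t :=
  LinearMap.map_smul (f : S →ₗ[S₀] M) a t

theorem Coind.map_one_mul (f : Coind S₀ M) (a : S₀) : f (a : S) = a • f 1 := by
  rw [← Coind.map_mul, mul_one]

/-- Constructor for elements of the coinduced module. -/
def Coind.mk (f : S → M) (h1 : ∀ s t, f (s + t) = f s + f t)
    (h2 : ∀ (a : S₀) (t : S), f (a * t) = a • f t) : Coind S₀ M :=
  ({ toFun := f, map_add' := h1, map_smul' := h2 } : S →ₗ[S₀] M)

@[simp] theorem Coind.mk_apply (f : S → M) (h1 : ∀ s t, f (s + t) = f s + f t)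
    (h2 : ∀ (a : S₀) (t : S), f (a * t) = a • f t) (t : S) : Coind.mk f h1 h2 t = f t := rfl

noncomputable instance : Module S (Coind S₀ M) where
  smul s f := Coind.mk (fun t => f (t * s)) (fun x y => by rw [add_mul]; exact map_add f _ _)
    (fun a t => by rw [mul_assoc, Coind.map_mul])
  one_smul f := by
    ext t
    show f (t * 1) = f t
    rw [mul_one]
  mul_smul s s' f := by
    ext t
    show f (t * (s * s')) = f (t * s * s')
    rw [mul_assoc]
  smul_zero s := by ext t; rfl
  smul_add s f g := by ext t; rfl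
  add_smul s s' f := by
    ext t
    show f (t * (s + s')) = f (t * s) + f (t * s')
    rw [mul_add, map_add]
  zero_smul f := by
    ext t
    show f (t * 0) = 0
    rw [mul_zero, map_zero]

@[simp] theorem Coind.smul_apply (s : S) (f : Coind S₀ M) (t : S) : (s • f) t = f (t * s) := rfl

theorem Coind.smul_apply' (a : S₀) (f : Coind S₀ M) (t : S) : (a • f) t = f (t * a) := rfl

/-- Evaluation at an element commuting with the subring is linear over the subring. -/
def Coind.eval (t : S) (ht : ∀ a : S₀, t * a = a * t) : Coind S₀ M →ₗ[S₀] M where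
  toFun f := f t
  map_add' f g := rfl
  map_smul' a f := by
    show f (t * a) = a • f t
    rw [ht, Coind.map_mul]

@[simp] theorem Coind.eval_apply (t : S) (ht : ∀ a : S₀, t * a = a * t) (f : Coind S₀ M) :
    Coind.eval t ht f = f t := rfl

/-- Composition with a homomorphism. -/
def Coind.post {M' : Type w} [AddCommGroup M'] [Module S₀ M'] (g : M →ₗ[S₀] M') :
    Coind S₀ M →ₗ[S] Coind S₀ M' where
  toFun f := Coind.mk (fun t => g (f t)) (fun x y => by rw [map_add, map_add])
    (fun a t => by rw [Coind.map_mul, map_smul])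
  map_add' f f' := by ext t; exact map_add g _ _
  map_smul' s f := by ext t; rfl

@[simp] theorem Coind.post_apply {M' : Type w} [AddCommGroup M'] [Module S₀ M']
    (g : M →ₗ[S₀] M') (f : Coind S₀ M) (t : S) : Coind.post g f t = g (f t) := rfl

end coind

/-- A basis of the ring over the subring, as a left module, consisting of elements commuting with
the subring. -/
structure CBasis (J : Type w) where
  /-- the basis -/
  basis : Module.Basis J S₀ S
  comm : ∀ (j : J) (a : S₀), basis j * a = a * basis j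

variable {S₀} {J : Type w} (B : CBasis S₀ J)

/-- The elements of the basis. -/
noncomputable def CBasis.el (j : J) : S := B.basis j

/-- The coordinates. -/
noncomputable def CBasis.co (j : J) (t : S) : S₀ := B.basis.repr t j

theorem CBasis.el_comm (j : J) (a : S₀) : B.el j * a = a * B.el j := B.comm j a

theorem CBasis.co_add (j : J) (s t : S) : B.co j (s + t) = B.co j s + B.co j t := by
  simp [CBasis.co]

theorem CBasis.co_mul_left (j : J) (a : S₀) (t : S) : B.co j (a * t) = a * B.co j t := by
  have : (a : S) * t = a • t := rfl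
  simp [CBasis.co, this]

theorem CBasis.co_el_same (j : J) : B.co j (B.el j) = 1 := by
  simp [CBasis.co, CBasis.el]

theorem CBasis.co_el_ne {i j : J} (h : i ≠ j) : B.co j (B.el i) = 0 := by
  simp [CBasis.co, CBasis.el, h]

theorem CBasis.sum_co (t : S) : ∑ j ∈ (B.basis.repr t).support, (B.co j t : S) * B.el j = t := by
  conv_rhs => rw [← B.basis.linearCombination_repr t]
  rw [Finsupp.linearCombination_apply, Finsupp.sum]
  rfl

theorem CBasis.co_mul_right (j : J) (a : S₀) (t : S) : B.co j (t * a) = B.co j t * a := by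
  classical
  have h : ∀ (F : Finset J) (c : J → S₀),
      B.co j ((∑ i ∈ F, (c i : S) * B.el i) * a) = B.co j (∑ i ∈ F, (c i : S) * B.el i) * a := by
    intro F c
    induction F using Finset.induction_on with
    | empty => simp [CBasis.co]
    | insert i F hi ih =>
      rw [Finset.sum_insert hi, add_mul, B.co_add, ih, B.co_add, add_mul, mul_assoc,
        B.el_comm, ← mul_assoc]
      congr 1
      have e : (c i : S) * (a : S) * B.el i = ((c i * a : S₀) : S) * B.el i := by
        rw [Subring.coe_mul]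
      rw [e, B.co_mul_left, B.co_mul_left]
      by_cases hij : i = j
      · subst hij
        rw [B.co_el_same]
        simp
      · rw [B.co_el_ne hij]
        simp
  have := h (B.basis.repr t).support (fun i => B.co i t)
  rwa [B.sum_co] at this

/-- The homomorphism `M → Hom_{S₀}(S, M)` taking `x` to `t ↦ κ_j^*(t s) x`; `s` commutes with the
subring. -/
noncomputable def CBasis.emb {M : Type v} [AddCommGroup M] [Module S₀ M] (j : J) (s : S)
    (hs : ∀ a : S₀, s * a = a * s) : M →ₗ[S₀] Coind S₀ M where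
  toFun x := Coind.mk (fun t => B.co j (t * s) • x)
    (fun t t' => by rw [add_mul, B.co_add, add_smul])
    (fun a t => by rw [mul_assoc, B.co_mul_left, mul_smul])
  map_add' x y := by ext t; exact smul_add _ _ _
  map_smul' a x := by
    ext t
    show B.co j (t * s) • (a • x) = B.co j (t * a * s) • x
    rw [mul_assoc, ← hs, ← mul_assoc, B.co_mul_right, mul_smul]

@[simp] theorem CBasis.emb_apply {M : Type v} [AddCommGroup M] [Module S₀ M] (j : J) (s : S)
    (hs : ∀ a : S₀, s * a = a * s) (x : M) (t : S) :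
    B.emb j s hs x t = B.co j (t * s) • x := rfl

/-- The element `t ↦ κ_j^*(t) x` of the coinduced module. -/
noncomputable def CBasis.pr {M : Type v} [AddCommGroup M] [Module S₀ M] (j : J) :
    M →ₗ[S₀] Coind S₀ M := B.emb j 1 (fun a => by rw [one_mul, mul_one])

@[simp] theorem CBasis.pr_apply {M : Type v} [AddCommGroup M] [Module S₀ M] (j : J) (x : M)
    (t : S) : B.pr j x t = B.co j t • x := by
  rw [CBasis.pr, B.emb_apply, mul_one]

theorem CBasis.smul_pr {M : Type v} [AddCommGroup M] [Module S₀ M] (j : J) (s : S)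
    (hs : ∀ a : S₀, s * a = a * s) (x : M) : s • B.pr j x = B.emb j s hs x := by
  ext t
  rw [Coind.smul_apply, B.pr_apply, B.emb_apply]

end subring

end Pool.Agent.Helper78.SD
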