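import Pool.Agent.Helper78.SD.Goals

/-!
# Assembly
-/

universe u v w x

namespace Pool.Agent.Helper78.SD

open Pool.Agent.Helper10.Width Pool.Agent.Helper72.Width

section restrict

variable {S : Type u} [Ring S] {S₀ : Subring S} {T₀ : Set (PP S₀ × PP S₀)}

theorem inClass_restrict {M : Type v} [AddCommGroup M] [Module S M]
    (h : InClass (upT S₀ T₀) M) : InClass T₀ M := by
  intro q hq
  exact h (up S₀ q.1, up S₀ q.2) ⟨q, hq, rfl⟩

/-- The modules of the class as modules over the subring. -/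
def restrictMod (M : Mods (upT S₀ T₀)) : Mods T₀ :=
  ⟨ModuleCat.of S₀ M.1, inClass_restrict M.2⟩

theorem imp_up {θ θ' : PP S₀} (h : Imp T₀ θ θ') : Imp (upT S₀ T₀) (up S₀ θ) (up S₀ θ') :=
  fun M => h (restrictMod M)

/-- A scheme of conditions over the subring. -/
theorem scheme_descends {J : Type w} (B : CBasis S₀ J) [Nonempty J] (hR : GoalReflect.{u, w})
    {Φ Ψ : List Bool → ppLattice (upT S₀ T₀)} (hS : Scheme Φ Ψ) {f g : List Bool → PP S₀}
    (hf : ∀ s, Φ s = toL _ (up S₀ (f s))) (hg : ∀ s, Ψ s = toL _ (up S₀ (g s))) :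
    Scheme (fun s => toL T₀ (f s)) (fun s => toL T₀ (g s)) := by
  have href : ∀ {θ θ' : PP S₀}, toL (upT S₀ T₀) (up S₀ θ) ≤ toL (upT S₀ T₀) (up S₀ θ') →
      toL T₀ θ ≤ toL T₀ θ' := fun {θ θ'} h => hR S S₀ J B inferInstance T₀ θ θ' h
  have hup : ∀ {θ θ' : PP S₀}, toL T₀ θ ≤ toL T₀ θ' →
      toL (upT S₀ T₀) (up S₀ θ) ≤ toL (upT S₀ T₀) (up S₀ θ') := fun h => imp_up h
  refine ⟨fun s => ?_, fun i s => ?_, fun i s => ?_, fun i s => ?_⟩
  · have h := hS.lt s
    rw [hf, hg] at h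
    exact lt_of_le_not_ge (href h.le) fun h' => h.not_ge (hup h')
  · have h := hS.phi_le i s
    rw [hf, hf] at h
    exact href h
  · have h := hS.psi_le i s
    rw [hg, hg] at h
    exact href h
  · have h := hS.cap i s
    rw [hf, hf, hg] at h
    show toL T₀ _ ⊓ toL T₀ _ ≤ toL T₀ _
    rw [← toL_inf]
    refine href ?_
    refine le_trans ?_ h
    rw [← toL_inf]
    intro M
    show (up S₀ ((f _).inf (f _))).sol M.1 ≤ ((up S₀ _).inf (up S₀ _)).sol M.1
    rw [sol_up, PP.sol_inf, PP.sol_inf, sol_up, sol_up]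

end restrict

/-- The engine: superdecomposable modules over the ring from a scheme of conditions over a small
subring. -/
theorem engine (hFilter : GoalFilter.{u + 1, u}) (hClass : GoalClass.{u, u, w})
    (hCard : GoalCard.{u}) (hNo : GoalNoLarge.{u, w})
    {S : Type u} [Ring S] {S₀ : Subring S} {J : Type w} (B : CBasis S₀ J) [hJ : Nonempty J]
    (hcard : Cardinal.mk S₀ < Cardinal.lift.{u} covM) {T₀ : Set (PP S₀ × PP S₀)}
    {φ ψ : List Bool → ppLattice T₀} (hS : Scheme φ ψ) :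
    HasSuperdecomposable (upT S₀ T₀) := by
  classical
  choose fo hfo using toL_surjective T₀
  obtain ⟨p, hp, hpφ, hpψ, hdec⟩ := hFilter (ppLattice T₀) φ ψ hS (fun n => NPP S₀ (n + 1))
    (NImp T₀) (ppComp T₀) (fun n E x => E.join (fo x)) (fun n E M => le_rfl)
    (by
      intro n E e he
      refine ⟨fun M => NPP.sol_le_join E (fo e) M.1, ?_⟩
      have h1 : ppComp T₀ n 0 (E.join (fo e)) = ppComp T₀ n 0 E ⊔ e := by
        have h2 : ppComp T₀ n 0 (E.join (fo e)) = toL T₀ ((E.comp 0).sup (fo e)) := by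
          refine Subtype.ext (funext fun M => ?_)
          show ((E.join (fo e)).comp 0).sol M.1 = ((E.comp 0).sup (fo e)).sol M.1
          rw [NPP.comp_join, PP.sol_sup]
        rw [h2, toL_sup, hfo]
        rfl
      rw [h1]
      exact sup_eq_right.2 he)
    (by simpa using hCard S₀ hcard)
  obtain ⟨M, hM, m, hm⟩ := exists_realization (T := T₀) (p := {θ | toL T₀ θ ∈ p})
    ⟨fun α hα β h => hp.up hα h, fun α hα β hβ => by
      show toL T₀ (α.inf β) ∈ p
      rw [toL_inf]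
      exact hp.inf hα hβ, by
      obtain ⟨x, hx⟩ := hp.nonempty
      exact ⟨fo x, by show toL T₀ (fo x) ∈ p; rwa [hfo]⟩⟩
  have hN : InClass T₀ (Bidual M) := inClass_bidual hM
  have ha : ∀ θ : PP S₀, ev (S := S₀) m ∈ θ.sol (Bidual M) ↔ toL T₀ θ ∈ p := fun θ =>
    ev_mem_sol.trans (hm θ)
  have hC : InClass (upT S₀ T₀) (Coind S₀ (Bidual M)) := hClass S S₀ J B T₀ (Bidual M) hN
  have hno := hNo S S₀ J B T₀ p hp ⟨_, hpψ⟩ hdec (Bidual M) hN (ev (S := S₀) m) ha hC
  refine superdecomposable_of_noLarge (upT S₀ T₀) ?_ ?_ hno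
  · refine ⟨⟨toL _ (PP.top S), fun j => ?_⟩, ?_, ?_⟩
    · show _ ∈ (PP.top S).sol _
      rw [PP.sol_top]
      trivial
    · intro x y hx hxy j
      exact hxy _ (hx j)
    · intro x y hx hy j
      exact ⟨hx j, hy j⟩
  · refine ⟨toL _ (PP.bot S), fun h => ?_⟩
    obtain ⟨j⟩ := hJ
    have h1 : (B.pr j (ev (S := S₀) m) : Coind S₀ (Bidual M)) ∈
      (PP.bot S).sol (Coind S₀ (Bidual M)) := h j
    rw [PP.sol_bot, AddSubgroup.mem_bot] at h1
    have h2 : (B.pr j (ev (S := S₀) m) : Coind S₀ (Bidual M)) (B.el j) = 0 := by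
      rw [h1, Coind.zero_apply]
    rw [B.pr_apply, B.co_el_same, one_smul] at h2
    obtain ⟨θ, hθ⟩ := toL_surjective T₀ (ψ [])
    refine hpψ ?_
    rw [← hθ]
    refine (ha θ).1 ?_
    rw [h2]
    exact zero_mem _

end Pool.Agent.Helper78.SD
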