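import Pool.Agent.Helper78.SD.Final2

/-!
# Extensions by centralizing bases
-/

universe u v w x

namespace Pool.Agent.Helper78.SD

open Pool.Agent.Helper10.Width Pool.Agent.Helper72.Width

/-- Transport of implication along a ring isomorphism. -/
theorem imp_equiv {S S' : Type u} [Ring S] [Ring S'] (e : S ≃+* S') {T : Set (PP S × PP S)}
    {α β : PP S} : Imp (mapT e.toRingHom T) (pmap e.toRingHom α) (pmap e.toRingHom β) ↔
      Imp T α β := by
  constructor
  · intro h M
    letI : Module S' M.1 := Module.compHom M.1 e.symm.toRingHom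
    have hsm : ∀ (s : S) (m : M.1), e.toRingHom s • m = s • m := fun s m => by
      show e.symm (e s) • m = s • m
      rw [e.symm_apply_apply]
    have hsol : ∀ (θ : PP S) (m : M.1), m ∈ (pmap e.toRingHom θ).sol M.1 ↔ m ∈ θ.sol M.1 := by
      intro θ m
      constructor
      · rintro ⟨y, hy⟩
        refine ⟨y, fun r => ?_⟩
        have h1 := hy r
        simp only [pmap, hsm] at h1
        exact h1
      · rintro ⟨y, hy⟩
        refine ⟨y, fun r => ?_⟩
        simp only [pmap, hsm]
        exact hy r
    have hM : InClass (mapT e.toRingHom T) M.1 := by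
      rintro _ ⟨q, hq, rfl⟩
      intro m hm
      exact (hsol q.2 m).2 (M.2 q hq ((hsol q.1 m).1 hm))
    intro x hx
    exact (hsol β x).1 (h ⟨ModuleCat.of S' M.1, hM⟩ ((hsol α x).2 hx))
  · intro h M'
    letI : Module S M'.1 := Module.compHom M'.1 e.toRingHom
    have hM : InClass T M'.1 := by
      rintro q hq
      exact M'.2 (pmap e.toRingHom q.1, pmap e.toRingHom q.2) ⟨q, hq, rfl⟩
    intro x hx
    exact h ⟨ModuleCat.of S M'.1, hM⟩ hx

/-- A basis of the ring `S` as a left module over the ring `A`, through a homomorphism, with elements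
commuting with the image of `A`. -/
structure EBasis {A S : Type u} [Ring A] [Ring S] (j : A →+* S) (I : Type w) where
  /-- the basis -/
  basis : @Module.Basis I A S _ _ (Module.compHom S j)
  comm : ∀ (i : I) (a : A), basis i * j a = j a * basis i

/-- The image of a subring is isomorphic to it. -/
noncomputable def mapEquiv {A S : Type u} [Ring A] [Ring S] (j : A →+* S)
    (hj : Function.Injective j) (S₀ : Subring A) : S₀ ≃+* S₀.map j :=
  S₀.equivMapOfInjective j hj

theorem coe_mapEquiv {A S : Type u} [Ring A] [Ring S] (j : A →+* S)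
    (hj : Function.Injective j) (S₀ : Subring A) (a : S₀) :
    ((mapEquiv j hj S₀ a : S₀.map j) : S) = j a :=
  Subring.coe_equivMapOfInjective_apply S₀ j hj a

/-- Composition of centralizing bases. -/
noncomputable def CBasis.comp {A S : Type u} [Ring A] [Ring S] (j : A →+* S)
    (hj : Function.Injective j) {S₀ : Subring A} {J : Type v} {I : Type w} (B : CBasis S₀ J)
    (E : EBasis j I) : CBasis (S₀.map j) (J × I) := by
  letI : Module A S := Module.compHom S j
  haveI : IsScalarTower S₀ A S := ⟨fun a b c => by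
    show j (a * b) * c = j a * (j b * c)
    rw [map_mul, mul_assoc]⟩
  let b : Module.Basis (J × I) (S₀.map j) S :=
    (B.basis.smulTower E.basis).mapCoeffs (mapEquiv j hj S₀) (by
      intro c x
      show ((mapEquiv j hj S₀ c : S₀.map j) : S) * x = j c * x
      rw [coe_mapEquiv])
  have hb : ∀ p : J × I, b p = j (B.basis p.1) * E.basis p.2 := by
    intro p
    show ((B.basis.smulTower E.basis).mapCoeffs (mapEquiv j hj S₀) _) p = _
    rw [Module.Basis.mapCoeffs_apply, Module.Basis.smulTower_apply]
    rfl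
  exact
    { basis := b
      comm := by
        rintro p ⟨_, a, ha, rfl⟩
        show b p * j a = j a * b p
        rw [hb, mul_assoc, E.comm, ← mul_assoc, ← mul_assoc, ← map_mul, ← map_mul]
        rw [B.comm p.1 ⟨a, ha⟩] }

theorem up_mapEquiv {A S : Type u} [Ring A] [Ring S] (j : A →+* S)
    (hj : Function.Injective j) (S₀ : Subring A) (θ : PP S₀) :
    up (S₀.map j) (pmap (mapEquiv j hj S₀).toRingHom θ) = pmap j (up S₀ θ) := by
  unfold up pmap
  congr 1

theorem ext_main (hFilter : GoalFilter.{u + 1, u}) (hClass : GoalClass.{u, u, max v w})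
    (hCard : GoalCard.{u}) (hNo : GoalNoLarge.{u, max v w}) (hR : GoalReflect.{u, v})
    (A : Type u) [Ring A] (hD : Descends.{u, v} A) (S : Type u) [Ring S] (j : A →+* S)
    (hj : Function.Injective j) (I : Type w) [Nonempty I] (E : EBasis j I)
    (T : Set (PP A × PP A)) (hT : Sm T)
    (P : Set (ppLattice T)) (hP : Pool.Agent.Helper10.Width.IsWide P) :
    HasSuperdecomposable (mapT j T) := by
  obtain ⟨Φ, Ψ, hS, -, -⟩ := (isWide_of hP).exists_scheme
  choose f hf using fun s => toL_surjective T (Φ s)
  choose g hg using fun s => toL_surjective T (Ψ s)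
  have hcov : Cardinal.aleph0 < Cardinal.lift.{u} covM := aleph0_lt_lift
  let D : Set A := ((⋃ s, coeffs (f s)) ∪ ⋃ s, coeffs (g s)) ∪
    ⋃ q : T, (coeffs q.1.1 ∪ coeffs q.1.2)
  have hD' : Sm D := by
    refine (Cardinal.mk_union_le _ _).trans_lt ?_
    refine Cardinal.add_lt_of_lt hcov.le ?_ ?_
    · refine lt_of_le_of_lt (Cardinal.le_aleph0_iff_set_countable.2 ?_) hcov
      exact (Set.countable_iUnion fun s => coeffs_countable _).union
        (Set.countable_iUnion fun s => coeffs_countable _)
    · refine (Cardinal.mk_iUnion_le _).trans_lt ?_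
      have h1 : (⨆ q : T, Cardinal.mk ↥(coeffs q.1.1 ∪ coeffs q.1.2)) ≤ Cardinal.aleph0 := by
        refine ciSup_le' fun q => ?_
        exact Cardinal.le_aleph0_iff_set_countable.2
          ((coeffs_countable _).union (coeffs_countable _))
      refine (mul_le_mul_right h1 _).trans_lt ?_
      exact Cardinal.mul_lt_of_lt hcov.le hT hcov
  obtain ⟨S₀, hS₀, hAS, J, hJ, ⟨B⟩⟩ := hD D hD'
  have hfc : ∀ s, coeffs (f s) ⊆ S₀ := fun s => (Set.Subset.trans
    (Set.subset_iUnion (fun s => coeffs (f s)) s) (Set.subset_union_left.trans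
      Set.subset_union_left)).trans hAS
  have hgc : ∀ s, coeffs (g s) ⊆ S₀ := fun s => (Set.Subset.trans
    (Set.subset_iUnion (fun s => coeffs (g s)) s) (Set.subset_union_right.trans
      Set.subset_union_left)).trans hAS
  have hTc : ∀ q ∈ T, coeffs q.1 ⊆ S₀ ∧ coeffs q.2 ⊆ S₀ := by
    intro q hq
    have h1 : coeffs q.1 ∪ coeffs q.2 ⊆ S₀ := (Set.Subset.trans
      (Set.subset_iUnion (fun q : T => coeffs q.1.1 ∪ coeffs q.1.2) ⟨q, hq⟩)
        Set.subset_union_right).trans hAS
    exact ⟨Set.subset_union_left.trans h1, Set.subset_union_right.trans h1⟩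
  choose f₀ hf₀ using fun s => exists_down (hfc s)
  choose g₀ hg₀ using fun s => exists_down (hgc s)
  obtain ⟨T₀, rfl⟩ := exists_downT hTc
  have hS' := scheme_descends B hR hS (f := f₀) (g := g₀) (fun s => by rw [hf₀, hf])
    (fun s => by rw [hg₀, hg])
  let e := mapEquiv j hj S₀
  have hS'' : Scheme (fun s => toL (mapT e.toRingHom T₀) (pmap e.toRingHom (f₀ s)))
      (fun s => toL (mapT e.toRingHom T₀) (pmap e.toRingHom (g₀ s))) := by
    refine ⟨fun s => ?_, fun i s => ?_, fun i s => ?_, fun i s => ?_⟩
    · exact lt_of_le_not_ge ((imp_equiv e).2 (hS'.lt s).le)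
        fun h => (hS'.lt s).not_ge ((imp_equiv e).1 h)
    · exact (imp_equiv e).2 (hS'.phi_le i s)
    · exact (imp_equiv e).2 (hS'.psi_le i s)
    · have h1 := hS'.cap i s
      rw [← toL_inf] at h1
      have h2 : toL (mapT e.toRingHom T₀)
          (pmap e.toRingHom ((f₀ (false :: s)).inf (f₀ (true :: s)))) ≤
          toL (mapT e.toRingHom T₀) (pmap e.toRingHom (g₀ (i :: s))) := (imp_equiv e).2 h1
      refine le_trans ?_ h2
      rw [← toL_inf]
      intro M
      show ((pmap _ _).inf (pmap _ _)).sol M.1 ≤ (pmap _ _).sol M.1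
      rw [PP.sol_inf, sol_pmap_inf]
  have hcard : Cardinal.mk (S₀.map j) < Cardinal.lift.{u} covM := by
    rw [← Cardinal.mk_congr e.toEquiv]
    exact hS₀
  have hfin := engine hFilter hClass hCard hNo (B.comp j hj E) hcard hS''
  have heq : upT (S₀.map j) (mapT e.toRingHom T₀) = mapT j (upT S₀ T₀) := by
    unfold upT mapT
    rw [Set.image_image, Set.image_image]
    refine Set.image_congr fun q _ => ?_
    rw [up_mapEquiv, up_mapEquiv]
  rw [heq] at hfin
  exact hfin

end Pool.Agent.Helper78.SD
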