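import Pool.Agent.Helper78.SD.Goals

/-!
# Packet FIELD: descent of an algebra of small dimension to a small subfield
-/

universe u v w x

namespace Pool.Agent.Helper78.SD

open Pool.Agent.Helper10.Width Pool.Agent.Helper72.Width

/-- The cardinality of the type is below `cov(M)`. -/
def Sm (X : Type w) : Prop := Cardinal.mk X < Cardinal.lift.{w} covM

theorem aleph0_lt_lift : Cardinal.aleph0 < Cardinal.lift.{w} covM := by
  have := Cardinal.lift_lt.{0, w}.2 aleph0_lt_covM
  rwa [Cardinal.lift_aleph0] at this

theorem Sm.lift {X : Type w} (h : Sm X) :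
    Cardinal.lift.{v} (Cardinal.mk X) < Cardinal.lift.{max v w} covM := by
  have h2 := Cardinal.lift_lt.{w, v}.2 h
  rwa [Cardinal.lift_lift] at h2

theorem sm_of_lift {X : Type w}
    (h : Cardinal.lift.{v} (Cardinal.mk X) < Cardinal.lift.{max v w} covM) : Sm X := by
  refine Cardinal.lift_lt.{w, v}.1 ?_
  rwa [Cardinal.lift_lift]

theorem Sm.of_injective {X : Type w} {Y : Type v} (f : X → Y) (hf : Function.Injective f)
    (hY : Sm Y) : Sm X := by
  have h1 := Cardinal.mk_le_of_injective (f := fun x : ULift.{v} X => (ULift.up (f x.down) :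
    ULift.{w} Y)) (fun a b h => by
      have h2 : f a.down = f b.down := congrArg ULift.down h
      exact ULift.ext _ _ (hf h2))
  rw [Cardinal.mk_uLift, Cardinal.mk_uLift] at h1
  exact sm_of_lift.{v, w} (h1.trans_lt hY.lift)

theorem Sm.range {X : Type w} {Y : Type v} (f : X → Y) (hX : Sm X) : Sm (Set.range f) := by
  refine sm_of_lift.{w, v} ?_
  refine Cardinal.mk_range_le_lift.trans_lt ?_
  exact hX.lift

theorem Sm.prod {X : Type w} {Y : Type v} (hX : Sm X) (hY : Sm Y) : Sm (X × Y) := by
  show Cardinal.mk (X × Y) < _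
  rw [Cardinal.mk_prod]
  exact Cardinal.mul_lt_of_lt aleph0_lt_lift.le hX.lift hY.lift

theorem Sm.list {X : Type w} (hX : Sm X) : Sm (List X) :=
  (Cardinal.mk_list_le_max X).trans_lt (max_lt aleph0_lt_lift hX)

theorem Sm.union {X : Type w} {A B : Set X} (hA : Sm A) (hB : Sm B) : Sm (A ∪ B : Set X) :=
  (Cardinal.mk_union_le A B).trans_lt (Cardinal.add_lt_of_lt aleph0_lt_lift.le hA hB)

section main

variable {K : Type v} [Field K] {S : Type u} [Ring S] [Algebra K S] {ι : Type u}
  (e : Module.Basis ι K S) (K₀ : Subfield K)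

theorem repr_mul (s t : S) (k : ι) : e.repr (s * t) k =
    ∑ i ∈ (e.repr s).support, ∑ j ∈ (e.repr t).support,
      e.repr s i * (e.repr t j * e.repr (e i * e j) k) := by
  have hs : s = ∑ i ∈ (e.repr s).support, e.repr s i • e i := by
    conv_lhs => rw [← e.linearCombination_repr s]
    rw [Finsupp.linearCombination_apply, Finsupp.sum]
  have ht : t = ∑ j ∈ (e.repr t).support, e.repr t j • e j := by
    conv_lhs => rw [← e.linearCombination_repr t]
    rw [Finsupp.linearCombination_apply, Finsupp.sum]
  have h : s * t = ∑ i ∈ (e.repr s).support, ∑ j ∈ (e.repr t).support,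
      (e.repr s i * e.repr t j) • (e i * e j) := by
    conv_lhs => rw [hs, ht]
    rw [Finset.sum_mul_sum]
    refine Finset.sum_congr rfl fun i _ => Finset.sum_congr rfl fun j _ => ?_
    rw [smul_mul_smul_comm]
  rw [h]
  simp only [map_sum, Finsupp.coe_finsetSum, Finset.sum_apply, map_smul, Finsupp.coe_smul,
    Pi.smul_apply, smul_eq_mul, mul_assoc]

/-- The elements whose coordinates are in the subfield. -/
def sub (hmul : ∀ i j k, e.repr (e i * e j) k ∈ K₀) (hone : ∀ k, e.repr 1 k ∈ K₀) : Subring S where
  carrier := {s | ∀ k, e.repr s k ∈ K₀}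
  mul_mem' := by
    intro s t hs ht k
    rw [repr_mul]
    exact sum_mem fun i _ => sum_mem fun j _ => mul_mem (hs i) (mul_mem (ht j) (hmul i j k))
  one_mem' := hone
  add_mem' := by
    intro s t hs ht k
    rw [map_add]
    exact add_mem (hs k) (ht k)
  zero_mem' := by
    intro k
    rw [map_zero]
    exact zero_mem K₀
  neg_mem' := by
    intro s hs k
    rw [map_neg]
    exact neg_mem (hs k)

variable {e K₀} (hmul : ∀ i j k, e.repr (e i * e j) k ∈ K₀) (hone : ∀ k, e.repr 1 k ∈ K₀)

theorem mem_sub {s : S} : s ∈ sub e K₀ hmul hone ↔ ∀ k, e.repr s k ∈ K₀ := Iff.rfl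

theorem smul_el_mem (c : K₀) (i : ι) : (c : K) • e i ∈ sub e K₀ hmul hone := by
  classical
  intro k
  rw [map_smul, Module.Basis.repr_self, Finsupp.smul_apply, Finsupp.single_apply]
  split_ifs
  · rw [smul_eq_mul, mul_one]; exact c.2
  · rw [smul_zero]; exact zero_mem K₀

theorem sm_sub (h1 : Sm ι) (h2 : Sm K₀) : Sm (sub e K₀ hmul hone) := by
  classical
  let f : sub e K₀ hmul hone → List (ι × K₀) := fun s =>
    ((e.repr (s : S)).support.toList).map fun i => (i, ⟨e.repr (s : S) i, s.2 i⟩)
  refine Sm.of_injective f ?_ (h1.prod h2).list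
  intro s t h
  have key : ∀ (s : sub e K₀ hmul hone) (i : ι) (c : K₀), c ≠ 0 →
      ((i, c) ∈ f s ↔ e.repr (s : S) i = c) := by
    intro s i c hc
    simp only [f, List.mem_map, Finset.mem_toList, Finsupp.mem_support_iff]
    constructor
    · rintro ⟨j, _, hj⟩
      obtain ⟨rfl, rfl⟩ := Prod.mk.inj hj
      rfl
    · intro hi
      refine ⟨i, ?_, ?_⟩
      · rw [hi]
        exact fun h0 => hc (Subtype.ext h0)
      · exact Prod.ext rfl (Subtype.ext hi)
  apply Subtype.ext
  apply e.repr.injective
  ext i
  by_cases hs : e.repr (s : S) i = 0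
  · by_cases ht : e.repr (t : S) i = 0
    · rw [hs, ht]
    · have hc : (⟨e.repr (t : S) i, t.2 i⟩ : K₀) ≠ 0 := fun h0 => ht (congrArg Subtype.val h0)
      have h3 := (key t i _ hc).2 rfl
      rw [← h] at h3
      exact (key s i _ hc).1 h3
  · have hc : (⟨e.repr (s : S) i, s.2 i⟩ : K₀) ≠ 0 := fun h0 => hs (congrArg Subtype.val h0)
    have h3 := (key s i _ hc).2 rfl
    rw [h] at h3
    exact ((key t i _ hc).1 h3).symm

/-- The basis of the ring over the subring. -/
theorem exists_basis {J : Type w} (k : Module.Basis J K₀ K) :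
    Nonempty (CBasis (sub e K₀ hmul hone) J) := by
  classical
  set S₀ := sub e K₀ hmul hone with hS₀
  have hli : LinearIndependent S₀ (fun j => algebraMap K S (k j)) := by
    rw [linearIndependent_iff']
    intro F g hg j hj
    have h1 : ∀ i, ∑ j ∈ F, e.repr (g j : S) i * k j = 0 := by
      intro i
      have h2 := congrArg (fun s => e.repr s i) hg
      simp only [map_zero, Finsupp.coe_zero, Pi.zero_apply, map_sum, Finsupp.coe_finsetSum,
        Finset.sum_apply] at h2
      rw [← h2]
      refine Finset.sum_congr rfl fun j _ => ?_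
      have h3 : g j • algebraMap K S (k j) = k j • (g j : S) := by
        rw [Algebra.smul_def, Algebra.commutes]
        rfl
      rw [h3, map_smul, Finsupp.smul_apply, smul_eq_mul, mul_comm]
    have h4 : ∀ i, (⟨e.repr (g j : S) i, (g j).2 i⟩ : K₀) = 0 := by
      intro i
      refine linearIndependent_iff'.1 k.linearIndependent F
        (fun j => ⟨e.repr (g j : S) i, (g j).2 i⟩) ?_ j hj
      rw [← h1 i]
      refine Finset.sum_congr rfl fun j _ => ?_
      rfl
    apply Subtype.ext
    apply e.repr.injective
    ext i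
    have := congrArg Subtype.val (h4 i)
    simpa using this
  have hsp : ⊤ ≤ Submodule.span S₀ (Set.range fun j => algebraMap K S (k j)) := by
    intro s _
    have hs : s = ∑ i ∈ (e.repr s).support, e.repr s i • e i := by
      conv_lhs => rw [← e.linearCombination_repr s]
      rw [Finsupp.linearCombination_apply, Finsupp.sum]
    rw [hs]
    refine sum_mem fun i _ => ?_
    have hc : e.repr s i = ∑ j ∈ (k.repr (e.repr s i)).support,
        (k.repr (e.repr s i) j : K) * k j := by
      conv_lhs => rw [← k.linearCombination_repr (e.repr s i)]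
      rw [Finsupp.linearCombination_apply, Finsupp.sum]
      rfl
    rw [hc, Finset.sum_smul]
    refine sum_mem fun j _ => ?_
    have h1 : ((k.repr (e.repr s i) j : K) * k j) • e i =
        (⟨(k.repr (e.repr s i) j : K) • e i, smul_el_mem hmul hone _ i⟩ : S₀) •
          algebraMap K S (k j) := by
      rw [mul_comm, mul_smul, Algebra.smul_def (k j), Algebra.commutes]
      rfl
    rw [h1]
    exact Submodule.smul_mem _ _ (Submodule.subset_span ⟨j, rfl⟩)
  refine ⟨⟨Module.Basis.mk hli hsp, fun j a => ?_⟩⟩
  rw [Module.Basis.mk_apply]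
  exact Algebra.commutes _ _

end main

theorem goalField : GoalField.{u, v} := by
  classical
  intro K _ S _ _ hrk A hA
  cases subsingleton_or_nontrivial S with
  | inl hS =>
    refine ⟨⊤, ?_, fun _ _ => trivial, PUnit, inferInstance, ⟨⟨Module.Basis.ofRepr
      { toFun := 0, map_add' := fun _ _ => Subsingleton.elim _ _,
        map_smul' := fun _ _ => Subsingleton.elim _ _, invFun := 0,
        left_inv := fun _ => Subsingleton.elim _ _,
        right_inv := fun _ => Subsingleton.elim _ _ }, fun _ _ => Subsingleton.elim _ _⟩⟩⟩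
    refine lt_of_le_of_lt ?_ aleph0_lt_lift
    exact Cardinal.mk_le_aleph0
  | inr hS =>
    let e := Module.Free.chooseBasis K S
    have hι : Sm (Module.Free.ChooseBasisIndex K S) := by
      show Cardinal.mk _ < _
      rwa [← Module.Free.rank_eq_card_chooseBasisIndex]
    let D : Set K := (Set.range fun q : Module.Free.ChooseBasisIndex K S ×
        Module.Free.ChooseBasisIndex K S × Module.Free.ChooseBasisIndex K S =>
          e.repr (e q.1 * e q.2.1) q.2.2) ∪
      ((Set.range fun k => e.repr 1 k) ∪
        Set.range fun q : A × Module.Free.ChooseBasisIndex K S => e.repr q.1 q.2)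
    have hD : Sm D := ((hι.prod (hι.prod hι)).range _).union
      ((hι.range _).union (Sm.range _ (Sm.prod hA hι)))
    have hK : Sm (Subfield.closure D) :=
      (Subfield.cardinalMk_closure_le_max D).trans_lt (max_lt hD aleph0_lt_lift)
    have hmul : ∀ i j k, e.repr (e i * e j) k ∈ Subfield.closure D := fun i j k =>
      Subfield.subset_closure (Or.inl ⟨(i, j, k), rfl⟩)
    have hone : ∀ k, e.repr 1 k ∈ Subfield.closure D := fun k =>
      Subfield.subset_closure (Or.inr (Or.inl ⟨k, rfl⟩))
    refine ⟨sub e _ hmul hone, sm_sub hmul hone hι hK, fun a ha k =>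
      Subfield.subset_closure (Or.inr (Or.inr ⟨(⟨a, ha⟩, k), rfl⟩)), _, ?_,
      exists_basis hmul hone (Module.Basis.ofVectorSpace (Subfield.closure D) K)⟩
    by_contra h
    rw [not_nonempty_iff] at h
    have : Subsingleton K := (Module.Basis.ofVectorSpace (Subfield.closure D) K).repr.toEquiv.subsingleton
    exact not_subsingleton K this

end Pool.Agent.Helper78.SD
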