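import Pool.Agent.Helper78.SD.Engine

/-!
# The final assembly: algebras of small dimension over a field
-/

universe u v w x

namespace Pool.Agent.Helper78.SD

open Pool.Agent.Helper10.Width Pool.Agent.Helper72.Width

section descend

variable {S : Type u} [Ring S]

/-- The coefficients of a pp condition. -/
def coeffs (θ : PP S) : Set S := Set.range θ.a ∪ Set.range fun q : Fin θ.n × Fin θ.k => θ.b q.1 q.2

theorem coeffs_countable (θ : PP S) : (coeffs θ).Countable :=
  (Set.countable_range _).union (Set.countable_range _)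

/-- A condition with coefficients in a subring comes from the subring. -/
theorem exists_down {S₀ : Subring S} {θ : PP S} (h : coeffs θ ⊆ S₀) :
    ∃ θ₀ : PP S₀, up S₀ θ₀ = θ := by
  refine ⟨⟨θ.n, θ.k, fun r => ⟨θ.a r, h (Or.inl ⟨r, rfl⟩)⟩,
    fun r l => ⟨θ.b r l, h (Or.inr ⟨(r, l), rfl⟩)⟩⟩, rfl⟩

/-- A set of pairs of conditions with coefficients in a subring comes from the subring. -/
theorem exists_downT {S₀ : Subring S} {T : Set (PP S × PP S)}
    (h : ∀ q ∈ T, coeffs q.1 ⊆ S₀ ∧ coeffs q.2 ⊆ S₀) :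
    ∃ T₀ : Set (PP S₀ × PP S₀), T = upT S₀ T₀ := by
  refine ⟨{q | (up S₀ q.1, up S₀ q.2) ∈ T}, ?_⟩
  ext q
  constructor
  · intro hq
    obtain ⟨α, hα⟩ := exists_down (h q hq).1
    obtain ⟨β, hβ⟩ := exists_down (h q hq).2
    exact ⟨(α, β), by show (up S₀ α, up S₀ β) ∈ T; rw [hα, hβ]; exact hq, by
      show (up S₀ α, up S₀ β) = q; rw [hα, hβ]⟩
  · rintro ⟨q', hq', rfl⟩
    exact hq'

end descend

theorem main (hFilter : GoalFilter.{u + 1, u}) (hClass : GoalClass.{u, u, v})
    (hCard : GoalCard.{u}) (hNo : GoalNoLarge.{u, v}) (hR : GoalReflect.{u, v})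
    (hField : GoalField.{u, v})
    (K : Type v) [Field K] (S : Type u) [Ring S] [Algebra K S]
    (hdim : Module.rank K S < Cardinal.lift.{u} covM) (T : Set (PP S × PP S))
    (hT : Cardinal.mk T < Cardinal.lift.{u} covM) (P : Set (ppLattice T))
    (hP : Pool.Agent.Helper10.Width.IsWide P) : HasSuperdecomposable T := by
  obtain ⟨Φ, Ψ, hS, -, -⟩ := (isWide_of hP).exists_scheme
  choose f hf using fun s => toL_surjective T (Φ s)
  choose g hg using fun s => toL_surjective T (Ψ s)
  have hcov : Cardinal.aleph0 < Cardinal.lift.{u} covM := by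
    have := Cardinal.lift_lt.{0, u}.2 aleph0_lt_covM
    rwa [Cardinal.lift_aleph0] at this
  let A : Set S := ((⋃ s, coeffs (f s)) ∪ ⋃ s, coeffs (g s)) ∪
    ⋃ q : T, (coeffs q.1.1 ∪ coeffs q.1.2)
  have hA : Cardinal.mk A < Cardinal.lift.{u} covM := by
    refine (Cardinal.mk_union_le _ _).trans_lt ?_
    refine Cardinal.add_lt_of_lt hcov.le ?_ ?_
    · refine lt_of_le_of_lt (Cardinal.le_aleph0_iff_set_countable.2 ?_) hcov
      exact (Set.countable_iUnion fun s => coeffs_countable _).union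
        (Set.countable_iUnion fun s => coeffs_countable _)
    · refine (Cardinal.mk_iUnion_le _).trans_lt ?_
      have h1 : (⨆ q : T, Cardinal.mk ↥(coeffs q.1.1 ∪ coeffs q.1.2)) ≤ Cardinal.aleph0 := by
        refine ciSup_le' fun q => ?_
        exact Cardinal.le_aleph0_iff_set_countable.2
          ((coeffs_countable _).union (coeffs_countable _))
      refine (mul_le_mul_right h1 _).trans_lt ?_
      exact Cardinal.mul_lt_of_lt hcov.le hT hcov
  obtain ⟨S₀, hS₀, hAS, J, hJ, ⟨B⟩⟩ := hField K S hdim A hA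
  have hfc : ∀ s, coeffs (f s) ⊆ S₀ := fun s => (Set.Subset.trans
    (Set.subset_iUnion (fun s => coeffs (f s)) s) (Set.subset_union_left.trans
      Set.subset_union_left)).trans hAS
  have hgc : ∀ s, coeffs (g s) ⊆ S₀ := fun s => (Set.Subset.trans
    (Set.subset_iUnion (fun s => coeffs (g s)) s) (Set.subset_union_right.trans
      Set.subset_union_left)).trans hAS
  have hTc : ∀ q ∈ T, coeffs q.1 ⊆ S₀ ∧ coeffs q.2 ⊆ S₀ := by
    intro q hq
    have h1 : coeffs q.1 ∪ coeffs q.2 ⊆ S₀ := (Set.Subset.trans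
      (Set.subset_iUnion (fun q : T => coeffs q.1.1 ∪ coeffs q.1.2) ⟨q, hq⟩)
        Set.subset_union_right).trans hAS
    exact ⟨Set.subset_union_left.trans h1, Set.subset_union_right.trans h1⟩
  choose f₀ hf₀ using fun s => exists_down (hfc s)
  choose g₀ hg₀ using fun s => exists_down (hgc s)
  obtain ⟨T₀, rfl⟩ := exists_downT hTc
  have hS' := scheme_descends B hR hS (f := f₀) (g := g₀) (fun s => by rw [hf₀, hf])
    (fun s => by rw [hg₀, hg])
  exact engine hFilter hClass hCard hNo B hS₀ hS'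

end Pool.Agent.Helper78.SD
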