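import Pool.Agent.Helper78.SD.Goals2

/-!
# The final assembly for algebras over commutative Artinian rings
-/

universe u v w x

namespace Pool.Agent.Helper78.SD

open Pool.Agent.Helper10.Width Pool.Agent.Helper72.Width

/-- A ring in which every small set is contained in a small subring over which the ring has a
centralizing basis. -/
def Descends (S : Type u) [Ring S] : Prop :=
  ∀ A : Set S, Sm A → ∃ S₀ : Subring S, Sm S₀ ∧ A ⊆ S₀ ∧
    ∃ J : Type v, Nonempty J ∧ Nonempty (CBasis S₀ J)

theorem main_scheme (hFilter : GoalFilter.{u + 1, u}) (hClass : GoalClass.{u, u, v})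
    (hCard : GoalCard.{u}) (hNo : GoalNoLarge.{u, v}) (hR : GoalReflect.{u, v})
    (S : Type u) [Ring S] (hD : Descends.{u, v} S) (T : Set (PP S × PP S)) (hT : Sm T)
    (f g : List Bool → PP S) (hS : Scheme (fun s => toL T (f s)) (fun s => toL T (g s))) :
    HasSuperdecomposable T := by
  have hcov : Cardinal.aleph0 < Cardinal.lift.{u} covM := aleph0_lt_lift
  let A : Set S := ((⋃ s, coeffs (f s)) ∪ ⋃ s, coeffs (g s)) ∪
    ⋃ q : T, (coeffs q.1.1 ∪ coeffs q.1.2)
  have hA : Sm A := by
    refine (Cardinal.mk_union_le _ _).trans_lt ?_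
    refine Cardinal.add_lt_of_lt hcov.le ?_ ?_
    · refine lt_of_le_of_lt (Cardinal.le_aleph0_iff_set_countable.2 ?_) hcov
      exact (Set.countable_iUnion fun s => coeffs_countable _).union
        (Set.countable_iUnion fun s => coeffs_countable _)
    · refine (Cardinal.mk_iUnion_le _).trans_lt ?_
      have h1 : (⨆ q : T, Cardinal.mk ↥(coeffs q.1.1 ∪ coeffs q.1.2)) ≤ Cardinal.aleph0 := by
        refine ciSup_le' fun q => ?_
        exact Cardinal.le_aleph0_iff_set_countable.2
          ((coeffs_countable _).union (coeffs_countable _))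
      refine (mul_le_mul_right h1 _).trans_lt ?_
      exact Cardinal.mul_lt_of_lt hcov.le hT hcov
  obtain ⟨S₀, hS₀, hAS, J, hJ, ⟨B⟩⟩ := hD A hA
  have hfc : ∀ s, coeffs (f s) ⊆ S₀ := fun s => (Set.Subset.trans
    (Set.subset_iUnion (fun s => coeffs (f s)) s) (Set.subset_union_left.trans
      Set.subset_union_left)).trans hAS
  have hgc : ∀ s, coeffs (g s) ⊆ S₀ := fun s => (Set.Subset.trans
    (Set.subset_iUnion (fun s => coeffs (g s)) s) (Set.subset_union_right.trans
      Set.subset_union_left)).trans hAS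
  have hTc : ∀ q ∈ T, coeffs q.1 ⊆ S₀ ∧ coeffs q.2 ⊆ S₀ := by
    intro q hq
    have h1 : coeffs q.1 ∪ coeffs q.2 ⊆ S₀ := (Set.Subset.trans
      (Set.subset_iUnion (fun q : T => coeffs q.1.1 ∪ coeffs q.1.2) ⟨q, hq⟩)
        Set.subset_union_right).trans hAS
    exact ⟨Set.subset_union_left.trans h1, Set.subset_union_right.trans h1⟩
  choose f₀ hf₀ using fun s => exists_down (hfc s)
  choose g₀ hg₀ using fun s => exists_down (hgc s)
  obtain ⟨T₀, rfl⟩ := exists_downT hTc
  have hS' := scheme_descends B hR hS (f := f₀) (g := g₀) (fun s => by rw [hf₀])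
    (fun s => by rw [hg₀])
  exact engine hFilter hClass hCard hNo B hS₀ hS'

section map

variable {S : Type u} {S' : Type u} [Ring S] [Ring S'] (π : S →+* S')

theorem mem_pmap (φ : PP S) {M : Type v} [AddCommGroup M] [Module S' M] {x : M} :
    x ∈ (pmap π φ).sol M ↔ x ∈ @PP.sol S _ φ M _ (Module.compHom M π) := Iff.rfl

theorem sol_pmap_inf (φ ψ : PP S) (M : Type v) [AddCommGroup M] [Module S' M] :
    (pmap π (φ.inf ψ)).sol M = (pmap π φ).sol M ⊓ (pmap π ψ).sol M := by
  ext x
  rw [AddSubgroup.mem_inf, mem_pmap, mem_pmap, mem_pmap]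
  letI := Module.compHom M π
  rw [PP.sol_inf, AddSubgroup.mem_inf]

theorem sm_mapT {T : Set (PP S × PP S)} (h : Sm T) : Sm (mapT π T) :=
  lt_of_le_of_lt Cardinal.mk_image_le h

theorem imp_Te {T : Set (PP S × PP S)} {e : S} {φ ψ : PP S} (h : Imp T φ ψ) :
    Imp (Te T e) φ ψ := fun M => h ⟨M.1, fun q hq => M.2 q (Or.inl hq)⟩

theorem imp_of_Te_one {T : Set (PP S × PP S)} {φ ψ : PP S} (h : Imp (Te T 1) φ ψ) :
    Imp T φ ψ := by
  intro M
  refine h ⟨M.1, ?_⟩
  rintro q (hq | hq)
  · exact M.2 q hq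
  · rw [Set.mem_singleton_iff.1 hq]
    intro x _
    refine ⟨Fin.elim0, fun i => ?_⟩
    show (1 - 1 : S) • x + ∑ j : Fin 0, (Fin.elim0 j : S) • (Fin.elim0 j : M.1) = 0
    simp

theorem imp_Te_zero {T : Set (PP S × PP S)} (φ ψ : PP S) : Imp (Te T 0) φ ψ := by
  intro M x _
  have h := M.2 (PP.top S, annPP (1 - 0)) (Or.inr rfl)
  have hx : x ∈ (PP.top S).sol M.1 := by rw [PP.sol_top]; trivial
  obtain ⟨y, hy⟩ := h hx
  have h1 : (1 - 0 : S) • x + ∑ j : Fin 0, (Fin.elim0 j : S) • y j = 0 := hy (0 : Fin 1)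
  have h2 : x = 0 := by simpa using h1
  rw [h2]
  exact zero_mem _

end map

theorem artinian_main (hFilter : GoalFilter.{u + 1, u}) (hClass : GoalClass.{u, u, v})
    (hCard : GoalCard.{u}) (hNo : GoalNoLarge.{u, v}) (hR : GoalReflect.{u, v})
    (hArt1 : GoalArt1.{v}) (hArt2 : GoalArt2.{u, v}) (hRes : GoalRestrict.{u})
    (hIdem : GoalIdem.{v}) (hSplit : GoalSplit.{u}) (hQuot : GoalQuot.{u})
    (C : Type v) [CommRing C] [IsArtinianRing C] (S : Type u) [Ring S] [Algebra C S]
    (G : Set S) (hG : Sm G) (hspan : Submodule.span C G = ⊤) (T : Set (PP S × PP S))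
    (hT : Sm T) (P : Set (ppLattice T)) (hP : Pool.Agent.Helper10.Width.IsWide P) :
    HasSuperdecomposable T := by
  obtain ⟨Φ, Ψ, hS, -, -⟩ := (isWide_of hP).exists_scheme
  choose φ hφ using fun s => toL_surjective T (Φ s)
  choose ψ hψ using fun s => toL_surjective T (Ψ s)
  have hle : ∀ i s, Imp T (φ (i :: s)) (φ s) := fun i s => by
    have := hS.phi_le i s
    rw [← hφ, ← hφ] at this
    exact this
  have hge : ∀ i s, Imp T (ψ s) (ψ (i :: s)) := fun i s => by
    have := hS.psi_le i s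
    rw [← hψ, ← hψ] at this
    exact this
  have hlt : ∀ s, Imp T (ψ s) (φ s) ∧ ¬ Imp T (φ s) (ψ s) := fun s => by
    have := hS.lt s
    rw [← hψ, ← hφ] at this
    exact ⟨this.le, this.not_ge⟩
  have hcap : ∀ i s, Imp T ((φ (false :: s)).inf (φ (true :: s))) (ψ (i :: s)) := fun i s => by
    have := hS.cap i s
    rw [← hφ, ← hφ, ← hψ, ← toL_inf] at this
    exact this
  have hle' : ∀ u t, Imp T (φ (u ++ t)) (φ t) := by
    intro u t
    induction u with
    | nil => exact Imp.refl _ _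
    | cons i u ih => exact (hle i _).trans ih
  have hge' : ∀ u t, Imp T (ψ t) (ψ (u ++ t)) := by
    intro u t
    induction u with
    | nil => exact Imp.refl _ _
    | cons i u ih => exact ih.trans (hge i _)
  have hcomm : ∀ (c : C) (s : S), algebraMap C S c * s = s * algebraMap C S c :=
    fun c s => Algebra.commutes c s
  let E : Set C := {e | e * e = e ∧ ∃ t, ∀ u,
    ¬ Imp (Te T (algebraMap C S e)) (φ (u ++ t)) (ψ (u ++ t))}
  obtain ⟨e, ⟨hee, t, ht⟩, hloc⟩ := hIdem C E
    ⟨one_mul 1, [], fun u h => (hlt _).2 (by rw [map_one] at h; exact imp_of_Te_one h)⟩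
    (by
      rintro ⟨-, t, ht⟩
      refine ht [] ?_
      rw [map_zero]
      exact imp_Te_zero _ _)
    (fun e he => he.1)
    (by
      rintro e ⟨hee, t, ht⟩ f hf
      by_cases h : ∀ u, ¬ Imp (Te T (algebraMap C S (e * f))) (φ (u ++ t)) (ψ (u ++ t))
      · exact Or.inl ⟨by rw [mul_mul_mul_comm, hee, hf], t, h⟩
      · right
        push Not at h
        obtain ⟨u, hu⟩ := h
        refine ⟨by
          have : (1 - f) * (1 - f) = 1 - f := by ring_nf; rw [pow_two, hf]; ring
          rw [mul_mul_mul_comm, hee, this], u ++ t, fun v hv => ?_⟩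
        refine ht (v ++ u) ?_
        refine hSplit S T (algebraMap C S e) (algebraMap C S f) (by rw [← map_mul, hee])
          (by rw [← map_mul, hf]) (hcomm e) (hcomm f) _ _ ?_ ?_
        · rw [← map_mul, List.append_assoc]
          exact (imp_Te (hle' v (u ++ t))).trans (hu.trans (imp_Te (hge' v (u ++ t))))
        · have e1 : algebraMap C S e * (1 - algebraMap C S f) =
              algebraMap C S (e * (1 - f)) := by rw [map_mul, map_sub, map_one]
          rw [e1, List.append_assoc]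
          exact hv)
  obtain ⟨S', hS'ring, π, hπ, hker, hiff⟩ := hQuot S T (algebraMap C S e)
    (by rw [← map_mul, hee]) (hcomm e)
  let I : Ideal C := Ideal.span {1 - e}
  have hI : ∀ a ∈ I, (π.comp (algebraMap C S)) a = 0 := by
    intro a ha
    obtain ⟨c, rfl⟩ := Ideal.mem_span_singleton.1 ha
    show π (algebraMap C S ((1 - e) * c)) = 0
    rw [hker, ← map_mul]
    have : e * ((1 - e) * c) = 0 := by
      have : e * ((1 - e) * c) = (e - e * e) * c := by ring
      rw [this, hee, sub_self, zero_mul]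
    rw [this, map_zero]
  let i₀ : (C ⧸ I) →+* S' := Ideal.Quotient.lift I (π.comp (algebraMap C S)) hI
  have hi₀ : ∀ c : C, i₀ (Ideal.Quotient.mk I c) = π (algebraMap C S c) := fun c =>
    Ideal.Quotient.lift_mk I _ hI
  letI : Algebra (C ⧸ I) S' := RingHom.toAlgebra' i₀ (by
    intro c x
    obtain ⟨c, rfl⟩ := Ideal.Quotient.mk_surjective c
    obtain ⟨s, rfl⟩ := hπ x
    rw [hi₀, ← map_mul, ← map_mul, hcomm])
  haveI : IsLocalRing (C ⧸ I) := hloc
  haveI : IsArtinianRing (C ⧸ I) := inferInstance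
  have hspan' : Submodule.span (C ⧸ I) (π '' G) = ⊤ := by
    rw [eq_top_iff]
    rintro x -
    obtain ⟨s, rfl⟩ := hπ x
    have hs : s ∈ Submodule.span C G := by rw [hspan]; trivial
    induction hs using Submodule.span_induction with
    | mem s hs => exact Submodule.subset_span ⟨s, hs, rfl⟩
    | zero => rw [map_zero]; exact zero_mem _
    | add s s' _ _ h h' => rw [map_add]; exact add_mem h h'
    | smul c s _ h =>
      have : π (c • s) = (Ideal.Quotient.mk I c) • π s := by
        rw [Algebra.smul_def, map_mul, ← hi₀]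
        rfl
      rw [this]
      exact Submodule.smul_mem _ _ h
  have hD : Descends.{u, v} S' := hArt2 (C ⧸ I) (hArt1 (C ⧸ I)) S' (π '' G)
    (lt_of_le_of_lt Cardinal.mk_image_le hG) hspan'
  refine hRes S S' π hπ T ?_
  refine main_scheme hFilter hClass hCard hNo hR S' hD (mapT π T) (sm_mapT π hT)
    (fun s => pmap π (φ (s ++ t))) (fun s => pmap π (ψ (s ++ t))) ?_
  have htr : ∀ {α β : PP S}, Imp T α β → Imp (mapT π T) (pmap π α) (pmap π β) :=
    fun h => (hiff _ _).1 (imp_Te h)
  refine ⟨fun s => ?_, fun i s => ?_, fun i s => ?_, fun i s => ?_⟩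
  · refine lt_of_le_not_ge (htr (hlt _).1) fun h => ht s ((hiff _ _).2 h)
  · exact htr (hle i _)
  · exact htr (hge i _)
  · show toL (mapT π T) (pmap π (φ (false :: (s ++ t)))) ⊓
      toL (mapT π T) (pmap π (φ (true :: (s ++ t)))) ≤ toL (mapT π T) (pmap π (ψ (i :: (s ++ t))))
    have h1 : toL (mapT π T) (pmap π ((φ (false :: (s ++ t))).inf (φ (true :: (s ++ t))))) ≤
        toL (mapT π T) (pmap π (ψ (i :: (s ++ t)))) := htr (hcap i (s ++ t))
    refine le_trans ?_ h1
    rw [← toL_inf]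
    intro M
    show ((pmap π _).inf (pmap π _)).sol M.1 ≤ (pmap π _).sol M.1
    rw [PP.sol_inf, sol_pmap_inf]

end Pool.Agent.Helper78.SD
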