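import Pool.Agent.Helper78.SD.Defs

/-!
# The statements of the packets
-/

universe u v w x

namespace Pool.Agent.Helper78.SD

open Pool.Agent.Helper10.Width Pool.Agent.Helper72.Width

section filter

variable {L : Type u} [Lattice L] {F : ℕ → Type v}

/-- The meet of the components of `E`. -/
def allComp (ι : ∀ n, Fin (n + 1) → F n → L) (n : ℕ) (E : F n) : L :=
  Finset.univ.inf' Finset.univ_nonempty fun i => ι n i E

/-- The set `p` decides `E`. -/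
def Decides (le : ∀ n, F n → F n → Prop) (ι : ∀ n, Fin (n + 1) → F n → L) (p : Set L) (n : ℕ)
    (E : F n) : Prop :=
  (∀ i, ι n i E ∈ p) ∨
  (∃ E', le n E E' ∧ ι n 0 E' ∈ p ∧ ∃ i, ι n i E' ∉ p) ∨
  ∃ E₀ E₁, le n E E₀ ∧ le n E E₁ ∧ (∃ i, ι n i E₀ ∉ p) ∧ (∃ i, ι n i E₁ ∉ p) ∧
    ∀ σ ∈ p, (σ ⊓ allComp ι n E₀) ⊔ (σ ⊓ allComp ι n E₁) ∈ p

/-- PACKET FILT: a filter deciding everything. -/
def GoalFilter : Prop :=
  ∀ (L : Type u) [Lattice L] [IsModularLattice L] (φ ψ : List Bool → L), Scheme φ ψ →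
  ∀ (F : ℕ → Type v) (le : ∀ n, F n → F n → Prop) (ι : ∀ n, Fin (n + 1) → F n → L)
    (join : ∀ n, F n → L → F n),
    (∀ n E, le n E E) →
    (∀ n E e, ι n 0 E ≤ e → le n E (join n E e) ∧ ι n 0 (join n E e) = e) →
    Cardinal.lift.{0} (Cardinal.mk (Σ n, F n)) < Cardinal.lift.{v} covM →
    ∃ p : Set L, IsFilt p ∧ φ [] ∈ p ∧ ψ [] ∉ p ∧ ∀ n E, Decides le ι p n E

end filter

/-- PACKET F1A. -/
def GoalF1a : Prop :=
  ∀ (S : Type u) [Ring S] (S₀ : Subring S) (J : Type w) (B : CBasis S₀ J) (M : Type v)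
    [AddCommGroup M] [Module S₀ M] (n : ℕ) (θ : NPP S₀ n) (q : Fin n → J) (a : M),
    Function.Injective q →
    (∀ j, (fun i => B.el (q i) • (B.pr j a : Coind S₀ M)) ∈ θ.sol (Coind S₀ M)) →
    ∀ i, a ∈ (θ.comp i).sol M

/-- PACKET F1B. -/
def GoalF1b : Prop :=
  ∀ (S : Type u) [Ring S] (S₀ : Subring S) (J : Type w) (B : CBasis S₀ J) (M : Type v)
    [AddCommGroup M] [Module S₀ M] (n : ℕ) (θ : NPP S₀ n) (q : Fin n → J) (a : M),
    (∀ i, a ∈ (θ.comp i).sol M) →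
    ∀ j, (fun i => B.el (q i) • (B.pr j a : Coind S₀ M)) ∈ θ.sol (Coind S₀ M)

/-- PACKET F2. -/
def GoalF2 : Prop :=
  ∀ (S : Type u) [Ring S] (S₀ : Subring S) (J : Type w) (B : CBasis S₀ J) (N : Type v)
    [AddCommGroup N] [Module S₀ N] [TopologicalSpace N] [CompactSpace N] [T2Space N]
    [ContinuousAdd N] [ContinuousConstSMul S₀ N] (φ : PP S) (a : N) (j : J),
    (B.pr j a : Coind S₀ N) ∉ φ.sol (Coind S₀ N) →
    ∃ (n : ℕ) (q : Fin n → J) (θ : NPP S₀ n), Function.Injective q ∧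
      (∀ (M : Type x) [AddCommGroup M] [Module S M] (z : M), z ∈ φ.sol M →
        (fun i => B.el (q i) • z) ∈ θ.sol M) ∧
      ∃ i, a ∉ (θ.comp i).sol N

/-- PACKET F3. -/
def GoalF3 : Prop :=
  ∀ (S : Type u) [Ring S] (S₀ : Subring S) (J : Type w) (B : CBasis S₀ J) (N : Type v)
    [AddCommGroup N] [Module S₀ N] [TopologicalSpace N] [CompactSpace N] [T2Space N]
    [ContinuousAdd N] [ContinuousConstSMul S₀ N] (a b : N),
    (∀ θ : PP S₀, a ∈ θ.sol N → b ∈ θ.sol N) → ∀ (j : J) (φ : PP S),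
    (B.pr j a : Coind S₀ N) ∈ φ.sol (Coind S₀ N) → (B.pr j b : Coind S₀ N) ∈ φ.sol (Coind S₀ N)

/-- PACKET F4. -/
def GoalF4 : Prop :=
  ∀ (S : Type u) [Ring S] (N : Type v)
    [AddCommGroup N] [Module S N] [TopologicalSpace N] [CompactSpace N] [T2Space N]
    [ContinuousAdd N] [ContinuousConstSMul S N] (a : N) (α β : PP S),
    (∀ σ : PP S, a ∈ σ.sol N → a ∈ ((σ.inf α).sup (σ.inf β)).sol N) →
    ∃ b c : N, a = b + c ∧ b ∈ α.sol N ∧ c ∈ β.sol N ∧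
      (∀ σ : PP S, a ∈ σ.sol N → b ∈ σ.sol N) ∧ (∀ σ : PP S, a ∈ σ.sol N → c ∈ σ.sol N)

/-- PACKET CLASS. -/
def GoalClass : Prop :=
  ∀ (S : Type u) [Ring S] (S₀ : Subring S) (J : Type w) (_ : CBasis S₀ J)
    (T₀ : Set (PP S₀ × PP S₀)) (M : Type v) [AddCommGroup M] [Module S₀ M],
    InClass T₀ M → InClass (upT S₀ T₀) (Coind S₀ M)

/-- PACKET REFL. -/
def GoalReflect : Prop :=
  ∀ (S : Type u) [Ring S] (S₀ : Subring S) (J : Type w) (_ : CBasis S₀ J), Nonempty J →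
    ∀ (T₀ : Set (PP S₀ × PP S₀)) (θ θ' : PP S₀),
    Imp (upT S₀ T₀) (up S₀ θ) (up S₀ θ') → Imp T₀ θ θ'

/-- PACKET FIELD. -/
def GoalField : Prop :=
  ∀ (K : Type v) [Field K] (S : Type u) [Ring S] [Algebra K S],
    Module.rank K S < Cardinal.lift.{u} covM → ∀ A : Set S,
    Cardinal.mk A < Cardinal.lift.{u} covM →
    ∃ S₀ : Subring S, Cardinal.mk S₀ < Cardinal.lift.{u} covM ∧ A ⊆ S₀ ∧
      ∃ J : Type v, Nonempty J ∧ Nonempty (CBasis S₀ J)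

/-- The components of the condition `E` as elements of the pp lattice. -/
def ppComp {S : Type u} [Ring S] (T : Set (PP S × PP S)) (n : ℕ) (i : Fin (n + 1))
    (E : NPP S (n + 1)) : ppLattice T := toL T (E.comp i)

/-- Implication of conditions in several variables in the modules of the class. -/
def NImp {S : Type u} [Ring S] (T : Set (PP S × PP S)) (n : ℕ) (E E' : NPP S (n + 1)) : Prop :=
  ∀ M : Mods T, E.sol M.1 ≤ E'.sol M.1

/-- PACKET CARD. -/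
def GoalCard : Prop :=
  ∀ (S : Type u), Cardinal.mk S < Cardinal.lift.{u} covM →
    Cardinal.mk (Σ n : ℕ, NPP S (n + 1)) < Cardinal.lift.{u} covM

/-- PACKET LARGE. -/
def GoalNoLarge : Prop :=
  ∀ (S : Type u) [Ring S] (S₀ : Subring S) (J : Type w) (B : CBasis S₀ J)
    (T₀ : Set (PP S₀ × PP S₀)) (p : Set (ppLattice T₀)), IsFilt p →
    (∃ x, x ∉ p) →
    (∀ (n : ℕ) (E : NPP S₀ (n + 1)), Decides (NImp T₀) (ppComp T₀) p n E) →
    ∀ (N : Type u) [AddCommGroup N] [Module S₀ N] [TopologicalSpace N] [CompactSpace N]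
      [T2Space N] [ContinuousAdd N] [ContinuousConstSMul S₀ N] (hN : InClass T₀ N) (a : N),
    (∀ φ : PP S₀, a ∈ φ.sol N ↔ toL T₀ φ ∈ p) →
    ∀ (hC : InClass (upT S₀ T₀) (Coind S₀ N)),
    NoLarge {x : ppLattice (upT S₀ T₀) |
      ∀ j : J, (B.pr j a : Coind S₀ N) ∈ x.1 ⟨ModuleCat.of S (Coind S₀ N), hC⟩}

end Pool.Agent.Helper78.SD
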