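import Pool.Agent.Helper78.SD.Final
import Pool.Agent.Helper78.SD.Field

/-!
# The statements of the second group of packets: algebras over commutative Artinian rings
-/

universe u v w x

namespace Pool.Agent.Helper78.SD

open Pool.Agent.Helper10.Width Pool.Agent.Helper72.Width

/-- PACKET CLOSE: closing off a small set. -/
def GoalClose : Prop :=
  ∀ (C : Type v) [CommRing C] (F : ℕ → C → C) (D : Set C), Sm D →
    ∃ C₀ : Subring C, Sm C₀ ∧ D ⊆ C₀ ∧ ∀ n, ∀ x ∈ C₀, F n x ∈ C₀

/-- Every small subset of the commutative ring is contained in a small subring over which the ring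
is free. -/
def SmallFree (C : Type v) [CommRing C] : Prop :=
  ∀ D : Set C, Sm D → ∃ C₀ : Subring C, Sm C₀ ∧ D ⊆ C₀ ∧
    ∃ J : Type v, Nonempty J ∧ Nonempty (Module.Basis J C₀ C)

/-- PACKET ART1. -/
def GoalArt1 : Prop :=
  ∀ (C : Type v) [CommRing C] [IsArtinianRing C] [IsLocalRing C], SmallFree C

/-- PACKET ART2. -/
def GoalArt2 : Prop :=
  ∀ (C : Type v) [CommRing C] [IsNoetherianRing C], SmallFree C →
    ∀ (S : Type u) [Ring S] [Algebra C S] (G : Set S), Sm G → Submodule.span C G = ⊤ →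
    ∀ A : Set S, Sm A → ∃ S₀ : Subring S, Sm S₀ ∧ A ⊆ S₀ ∧
      ∃ J : Type v, Nonempty J ∧ Nonempty (CBasis S₀ J)

section map

variable {S : Type u} {S' : Type w} [Ring S] [Ring S']

/-- The image of a pp condition under a ring homomorphism. -/
def pmap (π : S →+* S') (φ : PP S) : PP S' where
  n := φ.n
  k := φ.k
  a := fun r => π (φ.a r)
  b := fun r l => π (φ.b r l)

/-- The image of a set of pairs of pp conditions under a ring homomorphism. -/
def mapT (π : S →+* S') (T : Set (PP S × PP S)) : Set (PP S' × PP S') :=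
  (fun q => (pmap π q.1, pmap π q.2)) '' T

/-- The condition `c x = 0`. -/
def annPP (c : S) : PP S where
  n := 1
  k := 0
  a := fun _ => c
  b := fun _ => Fin.elim0

/-- The class of the modules of the class `T` with `(1 - e) M = 0`. -/
def Te (T : Set (PP S × PP S)) (e : S) : Set (PP S × PP S) :=
  T ∪ {(PP.top S, annPP (1 - e))}

end map

/-- PACKET RESTRICT. -/
def GoalRestrict : Prop :=
  ∀ (S S' : Type u) [Ring S] [Ring S'] (π : S →+* S'), Function.Surjective π →
    ∀ T : Set (PP S × PP S), HasSuperdecomposable (mapT π T) → HasSuperdecomposable T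

/-- PACKET IDEM. -/
def GoalIdem : Prop :=
  ∀ (C : Type v) [CommRing C] [IsArtinianRing C] (E : Set C), 1 ∈ E → 0 ∉ E →
    (∀ e ∈ E, e * e = e) → (∀ e ∈ E, ∀ f : C, f * f = f → e * f ∈ E ∨ e * (1 - f) ∈ E) →
    ∃ e ∈ E, IsLocalRing (C ⧸ Ideal.span {1 - e})

/-- PACKET SPLIT. -/
def GoalSplit : Prop :=
  ∀ (S : Type u) [Ring S] (T : Set (PP S × PP S)) (e f : S), e * e = e → f * f = f →
    (∀ s, e * s = s * e) → (∀ s, f * s = s * f) → ∀ φ ψ : PP S,
    Imp (Te T (e * f)) φ ψ → Imp (Te T (e * (1 - f))) φ ψ → Imp (Te T e) φ ψ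

/-- PACKET QUOT. -/
def GoalQuot : Prop :=
  ∀ (S : Type u) [Ring S] (T : Set (PP S × PP S)) (e : S), e * e = e →
    (∀ s, e * s = s * e) → ∃ (S' : Type u) (_ : Ring S') (π : S →+* S'),
      Function.Surjective π ∧ (∀ s, π s = 0 ↔ e * s = 0) ∧
      ∀ φ ψ : PP S, Imp (Te T e) φ ψ ↔ Imp (mapT π T) (pmap π φ) (pmap π ψ)

end Pool.Agent.Helper78.SD
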