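import Pool.Agent.Helper78.SD.Goals2

universe u v w x

namespace Pool.Agent.Helper78.SD

theorem goalIdem : GoalIdem.{v} := by
  intro C _ _ E h1 h0 hid hsp
  -- a minimal element
  obtain ⟨I, hIE, hmin⟩ := IsArtinian.set_has_minimal (R := C) (M := C)
    ((fun e : C => Ideal.span {e}) '' E) ⟨_, 1, h1, rfl⟩
  obtain ⟨e, heE, rfl⟩ := hIE
  have hee := hid e heE
  have hmin' : ∀ f : C, f * f = f → e * f ∈ E → e * (1 - f) = 0 := by
    intro f hf hef
    have hle : Ideal.span {e * f} ≤ Ideal.span {e} := by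
      rw [Ideal.span_singleton_le_span_singleton]
      exact Dvd.intro _ rfl
    have heq : Ideal.span {e * f} = Ideal.span {e} := by
      by_contra hne
      exact hmin _ ⟨e * f, hef, rfl⟩ (lt_of_le_of_ne hle hne)
    have hmem : e ∈ Ideal.span {e * f} := by
      rw [heq]; exact Ideal.mem_span_singleton_self e
    obtain ⟨c, hc⟩ := Ideal.mem_span_singleton.1 hmem
    calc e * (1 - f) = e * f * c * (1 - f) := by rw [← hc]
      _ = e * c * (f - f * f) := by ring
      _ = 0 := by rw [hf, sub_self, mul_zero]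
  refine ⟨e, heE, ?_⟩
  have hmk : ∀ a : C, e * a = 0 → Ideal.Quotient.mk (Ideal.span {1 - e}) a = 0 := by
    intro a ha
    rw [Ideal.Quotient.eq_zero_iff_mem, Ideal.mem_span_singleton]
    exact ⟨a, by rw [sub_mul, ha, one_mul, sub_zero]⟩
  haveI : Nontrivial (C ⧸ Ideal.span {1 - e}) := by
    rw [Ideal.Quotient.nontrivial_iff]
    intro htop
    have h2 : (1 : C) ∈ Ideal.span {1 - e} := by rw [htop]; trivial
    obtain ⟨c, hc⟩ := Ideal.mem_span_singleton.1 h2
    have : e = 0 := by
      calc e = e * 1 := (mul_one e).symm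
        _ = e * ((1 - e) * c) := by rw [← hc]
        _ = (e - e * e) * c := by ring
        _ = 0 := by rw [hee, sub_self, zero_mul]
    rw [this] at heE
    exact h0 heE
  refine IsLocalRing.of_isUnit_or_isUnit_one_sub_self fun x' => ?_
  obtain ⟨x, rfl⟩ := Ideal.Quotient.mk_surjective x'
  -- stabilization of powers
  obtain ⟨n, y, hy⟩ := IsArtinian.exists_pow_succ_smul_dvd x (1 : C)
  have hy1 : x ^ (n + 1) = x ^ (n + 1) * (x * y) := by
    have h2 : x ^ (n + 1) * y = x ^ n := by simpa using hy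
    calc x ^ (n + 1) = x * x ^ n := by ring
      _ = x * (x ^ (n + 1) * y) := by rw [h2]
      _ = x ^ (n + 1) * (x * y) := by ring
  have hyk : ∀ k, x ^ (n + 1) = x ^ (n + 1) * (x * y) ^ k := by
    intro k
    induction k with
    | zero => simp
    | succ k ih => rw [pow_succ (x * y) k, ← mul_assoc, ← ih]; exact hy1
  let f : C := (x * y) ^ (n + 1)
  have hf1 : x ^ (n + 1) * f = x ^ (n + 1) := (hyk (n + 1)).symm
  have hff : f * f = f := by
    calc f * f = x ^ (n + 1) * f * y ^ (n + 1) := by show (x * y) ^ (n + 1) * f = _; ring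
      _ = f := by rw [hf1, ← mul_pow]
  rcases hsp e heE f hff with h | h
  · left
    have h2 := hmk _ (hmin' f hff h)
    rw [map_sub, map_one, sub_eq_zero] at h2
    have h3 : Ideal.Quotient.mk (Ideal.span {1 - e}) x *
        Ideal.Quotient.mk (Ideal.span {1 - e}) (y * (x * y) ^ n) = 1 := by
      rw [← map_mul, h2]
      congr 1
      show x * (y * (x * y) ^ n) = (x * y) ^ (n + 1)
      ring
    exact IsUnit.of_mul_eq_one _ h3
  · right
    have h2 := hmin' (1 - f) (by
      have : (1 - f) * (1 - f) = 1 - f - f + f * f := by ring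
      rw [this, hff]; ring) h
    rw [sub_sub_cancel] at h2
    have h3 := hmk _ h2
    have h4 : (Ideal.Quotient.mk (Ideal.span {1 - e}) x) ^ (n + 1) = 0 := by
      rw [← map_pow, ← hf1, map_mul, h3, mul_zero]
    exact (IsNilpotent.isUnit_one_sub ⟨n + 1, h4⟩)

end Pool.Agent.Helper78.SD
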