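import Pool.Agent.Helper78.SD.Split

universe u v w x

namespace Pool.Agent.Helper78.SD

open Pool.Agent.Helper10.Width Pool.Agent.Helper72.Width

theorem goalQuot : GoalQuot.{u} := by
  classical
  intro S _ T e hee hec
  let I : Ideal S :=
    { carrier := {s | e * s = 0}
      add_mem' := by
        intro a b ha hb
        show e * (a + b) = 0
        rw [mul_add, ha, hb, add_zero]
      zero_mem' := mul_zero e
      smul_mem' := by
        intro c a ha
        show e * (c * a) = 0
        rw [← mul_assoc, hec, mul_assoc, ha, mul_zero] }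
  have hI : ∀ s, s ∈ I ↔ e * s = 0 := fun s => Iff.rfl
  haveI : I.IsTwoSided := ⟨fun {a} b ha => by
    show e * (a * b) = 0
    rw [← mul_assoc, (hI a).1 ha, zero_mul]⟩
  let π : S →+* S ⧸ I := Ideal.Quotient.mk I
  have hπ : Function.Surjective π := Ideal.Quotient.mk_surjective
  have hker : ∀ s, π s = 0 ↔ e * s = 0 := fun s => by
    rw [← hI]
    exact Ideal.Quotient.eq_zero_iff_mem
  refine ⟨S ⧸ I, inferInstance, π, hπ, hker, fun φ ψ => ⟨fun h M' => ?_, fun h M => ?_⟩⟩
  · letI : Module S M'.1 := Module.compHom M'.1 π
    have hM : InClass (Te T e) M'.1 := by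
      rintro q (hq | hq)
      · exact M'.2 (pmap π q.1, pmap π q.2) ⟨q, hq, rfl⟩
      · rw [Set.mem_singleton_iff.1 hq]
        intro m _
        rw [mem_annPP]
        show π (1 - e) • m = 0
        rw [(hker (1 - e)).2 (by rw [mul_sub, mul_one, hee, sub_self]), zero_smul]
    intro x hx
    exact h ⟨ModuleCat.of S M'.1, hM⟩ hx
  · have he : ∀ m : M.1, e • m = m := by
      intro m
      have h1 := M.2 (PP.top S, annPP (1 - e)) (Or.inr rfl)
      have h2 : (m : M.1) ∈ (PP.top S).sol M.1 := by rw [PP.sol_top]; trivial
      have h3 := mem_annPP.1 (h1 h2)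
      rw [sub_smul, one_smul, sub_eq_zero] at h3
      exact h3.symm
    have hwd : ∀ s t : S, π s = π t → ∀ m : M.1, s • m = t • m := by
      intro s t hst m
      have h1 : e * (s - t) = 0 := (hker _).1 (by rw [map_sub, hst, sub_self])
      have h2 : (s - t) • m = 0 := by
        rw [← he ((s - t) • m), smul_smul, h1, zero_smul]
      rwa [sub_smul, sub_eq_zero] at h2
    let sec : S ⧸ I → S := Function.surjInv hπ
    have hsec : ∀ a, π (sec a) = a := Function.surjInv_eq hπ
    letI : Module (S ⧸ I) M.1 :=
      { smul := fun a m => sec a • m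
        one_smul := fun m => by
          show sec 1 • m = m
          rw [hwd (sec 1) 1 (by rw [hsec, map_one]), one_smul]
        mul_smul := fun a b m => by
          show sec (a * b) • m = sec a • sec b • m
          rw [smul_smul]
          exact hwd _ _ (by rw [map_mul, hsec, hsec, hsec]) m
        smul_zero := fun a => smul_zero (sec a)
        smul_add := fun a => smul_add (sec a)
        add_smul := fun a b m => by
          show sec (a + b) • m = sec a • m + sec b • m
          rw [← add_smul]
          exact hwd _ _ (by rw [map_add, hsec, hsec, hsec]) m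
        zero_smul := fun m => by
          show sec 0 • m = 0
          rw [hwd (sec 0) 0 (by rw [hsec, map_zero]), zero_smul] }
    have hsm : ∀ (s : S) (m : M.1), π s • m = s • m := fun s m =>
      hwd (sec (π s)) s (hsec _) m
    have hsol : ∀ (θ : PP S) (m : M.1), m ∈ (pmap π θ).sol M.1 ↔ m ∈ θ.sol M.1 := by
      intro θ m
      constructor
      · rintro ⟨y, hy⟩
        refine ⟨y, fun r => ?_⟩
        have h1 := hy r
        simp only [pmap, hsm] at h1
        exact h1
      · rintro ⟨y, hy⟩
        refine ⟨y, fun r => ?_⟩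
        simp only [pmap, hsm]
        exact hy r
    have hM : InClass (mapT π T) M.1 := by
      rintro _ ⟨q, hq, rfl⟩
      intro m hm
      exact (hsol q.2 m).2 (M.2 q (Or.inl hq) ((hsol q.1 m).1 hm))
    intro x hx
    exact (hsol ψ x).1 (h ⟨ModuleCat.of (S ⧸ I) M.1, hM⟩ ((hsol φ x).2 hx))

end Pool.Agent.Helper78.SD
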