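import Pool.Agent.Helper78.SD.Goals2

universe u v w x

namespace Pool.Agent.Helper78.SD

open Pool.Agent.Helper10.Width Pool.Agent.Helper72.Width

section

variable {S : Type u} [Ring S]

/-- Multiplication by a central element. -/
def cmul (f : S) (hf : ∀ s, f * s = s * f) (M : Type v) [AddCommGroup M] [Module S M] :
    M →ₗ[S] M where
  toFun m := f • m
  map_add' := smul_add f
  map_smul' s m := by
    show f • s • m = s • f • m
    rw [smul_smul, smul_smul, hf]

theorem cmul_apply (f : S) (hf : ∀ s, f * s = s * f) (M : Type v) [AddCommGroup M] [Module S M]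
    (m : M) : cmul f hf M m = f • m := rfl

theorem mem_annPP {c : S} {M : Type v} [AddCommGroup M] [Module S M] {x : M} :
    x ∈ (annPP c).sol M ↔ c • x = 0 := by
  constructor
  · rintro ⟨y, hy⟩
    have h1 : c • x + ∑ j : Fin 0, (Fin.elim0 j : S) • y j = 0 := hy (0 : Fin 1)
    simpa using h1
  · intro h
    refine ⟨Fin.elim0, fun i => ?_⟩
    show c • x + ∑ j : Fin 0, (Fin.elim0 j : S) • (Fin.elim0 j : M) = 0
    simp [h]

/-- The part `f M` of a module of the class `T`. -/
theorem part {T : Set (PP S × PP S)} {e f : S} (hf : f * f = f) (hfc : ∀ s, f * s = s * f)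
    (hec : ∀ s, e * s = s * e)
    {φ ψ : PP S} (h : Imp (Te T (e * f)) φ ψ) (M : Mods (Te T e)) {x : M.1}
    (hx : x ∈ φ.sol M.1) : f • x ∈ ψ.sol M.1 := by
  let R := LinearMap.range (cmul f hfc M.1)
  have hfix : ∀ m : R, f • (m : M.1) = m := by
    rintro ⟨_, m, rfl⟩
    show f • f • m = f • m
    rw [smul_smul, hf]
  let pr : M.1 →ₗ[S] R := (cmul f hfc M.1).rangeRestrict
  have hpr : ∀ m : R, pr (m : M.1) = m := fun m => Subtype.ext (hfix m)
  have hN : InClass (Te T (e * f)) R := by
    rintro q (hq | hq)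
    · intro m hm
      have h1 := q.1.map_sol R.subtype hm
      have h2 := M.2 q (Or.inl hq) h1
      have h3 := q.2.map_sol pr h2
      rw [Submodule.subtype_apply, hpr] at h3
      exact h3
    · rw [Set.mem_singleton_iff.1 hq]
      intro m _
      rw [mem_annPP]
      have he : e • (m : M.1) = m := by
        have h1 := M.2 (PP.top S, annPP (1 - e)) (Or.inr rfl)
        have h2 : (m : M.1) ∈ (PP.top S).sol M.1 := by rw [PP.sol_top]; trivial
        have h3 := mem_annPP.1 (h1 h2)
        rw [sub_smul, one_smul, sub_eq_zero] at h3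
        exact h3.symm
      refine Subtype.ext ?_
      show (1 - e * f) • (m : M.1) = 0
      rw [sub_smul, one_smul, mul_smul, hfix, he, sub_self]
  have h1 : pr x ∈ φ.sol R := φ.map_sol pr hx
  have h2 : pr x ∈ ψ.sol R := h ⟨ModuleCat.of S R, hN⟩ h1
  exact ψ.map_sol R.subtype h2

end

theorem goalSplit : GoalSplit.{u} := by
  intro S _ T e f _ hf hec hfc φ ψ h h' M x hx
  have h1 := part hf hfc hec h M hx
  have hf' : (1 - f) * (1 - f) = 1 - f := by
    rw [mul_sub, mul_one, sub_mul, one_mul, hf, sub_self, sub_zero]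
  have hfc' : ∀ s, (1 - f) * s = s * (1 - f) := fun s => by
    rw [sub_mul, mul_sub, hfc, one_mul, mul_one]
  have h2 := part hf' hfc' hec h' M hx
  have h3 := add_mem h1 h2
  rw [← add_smul, add_sub_cancel, one_smul] at h3
  exact h3

end Pool.Agent.Helper78.SD
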