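import Pool.Agent.Helper78.SD.Ext

/-!
# Tensor products with arbitrary algebras
-/

universe u v w x

namespace Pool.Agent.Helper78.SD

open Pool.Agent.Helper10.Width Pool.Agent.Helper72.Width
open scoped TensorProduct

theorem EBasis.injective {A S : Type u} [Ring A] [Ring S] {j : A →+* S} {I : Type w} [Nonempty I]
    (E : EBasis j I) : Function.Injective j := by
  letI : Module A S := Module.compHom S j
  rw [injective_iff_map_eq_zero]
  intro a ha
  obtain ⟨i⟩ := ‹Nonempty I›
  have h1 : a • E.basis i = 0 := by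
    show j a * E.basis i = 0
    rw [ha, zero_mul]
  have h2 := congrArg (fun x => E.basis.repr x i) h1
  simpa using h2

section

variable (C : Type v) [CommRing C] (A B : Type u) [Ring A] [Ring B] [Algebra C A] [Algebra C B]

/-- The homomorphism `A → A ⊗ B`, for the opposite rings. -/
noncomputable def inclOp : Aᵐᵒᵖ →+* (A ⊗[C] B)ᵐᵒᵖ :=
  RingHom.op (Algebra.TensorProduct.includeLeft : A →ₐ[C] A ⊗[C] B).toRingHom

theorem inclOp_apply (a : A) : inclOp C A B (MulOpposite.op a) = MulOpposite.op (a ⊗ₜ[C] 1) := rfl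

variable {B} in
/-- A basis of `B` gives a centralizing basis. -/
noncomputable def tensorBasis {I : Type w} (b : Module.Basis I C B) : EBasis (inclOp C A B) I := by
  letI : Module Aᵐᵒᵖ (A ⊗[C] B)ᵐᵒᵖ := Module.compHom _ (inclOp C A B)
  let b' : Module.Basis I C Bᵐᵒᵖ := b.map (MulOpposite.opLinearEquiv C)
  let e : (Aᵐᵒᵖ ⊗[C] Bᵐᵒᵖ) ≃ₐ[C] (A ⊗[C] B)ᵐᵒᵖ := Algebra.TensorProduct.opAlgEquiv C C A B
  let e' : (Aᵐᵒᵖ ⊗[C] Bᵐᵒᵖ) ≃ₗ[Aᵐᵒᵖ] (A ⊗[C] B)ᵐᵒᵖ :=
    { toFun := e
      invFun := e.symm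
      left_inv := e.left_inv
      right_inv := e.right_inv
      map_add' := map_add e
      map_smul' := fun a x => by
        show e (a • x) = inclOp C A B a * e x
        have h1 : a • x = (a ⊗ₜ[C] (1 : Bᵐᵒᵖ)) * x := by
          induction x using TensorProduct.induction_on with
          | zero => simp
          | tmul y z => rw [TensorProduct.smul_tmul', Algebra.TensorProduct.tmul_mul_tmul,
              one_mul, smul_eq_mul]
          | add y z hy hz => rw [smul_add, mul_add, hy, hz]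
        rw [h1, map_mul]
        congr 1 }
  let bb : Module.Basis I Aᵐᵒᵖ (A ⊗[C] B)ᵐᵒᵖ := (Algebra.TensorProduct.basis Aᵐᵒᵖ b').map e'
  have hbb : ∀ i, bb i = MulOpposite.op ((1 : A) ⊗ₜ[C] b i) := by
    intro i
    show e (Algebra.TensorProduct.basis Aᵐᵒᵖ b' i) = _
    rw [Algebra.TensorProduct.basis_apply]
    rfl
  exact
    { basis := bb
      comm := by
        intro i a
        show bb i * inclOp C A B a = inclOp C A B a * bb i
        rw [hbb]
        obtain ⟨a, rfl⟩ := MulOpposite.op_surjective a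
        rw [inclOp_apply, ← MulOpposite.op_mul, ← MulOpposite.op_mul,
          Algebra.TensorProduct.tmul_mul_tmul, Algebra.TensorProduct.tmul_mul_tmul]
        simp }

end

theorem tensor_main (hFilter : GoalFilter.{u + 1, u}) (hClass : GoalClass.{u, u, max v u})
    (hCard : GoalCard.{u}) (hNo : GoalNoLarge.{u, max v u}) (hR : GoalReflect.{u, v})
    (hArt1 : GoalArt1.{v}) (hArt2 : GoalArt2.{u, v})
    (C : Type v) [CommRing C] [IsArtinianRing C] [IsLocalRing C] (A B : Type u) [Ring A]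
    [Ring B] [Algebra C A] [Algebra C B] [Module.Free C B] [Nontrivial B]
    (G : Set A) (hG : Sm G) (hspan : Submodule.span C G = ⊤)
    (T : Set (PP Aᵐᵒᵖ × PP Aᵐᵒᵖ)) (hT : Sm T)
    (P : Set (ppLattice T)) (hP : Pool.Agent.Helper10.Width.IsWide P) :
    HasSuperdecomposable (mapT (inclOp C A B) T) := by
  let b := Module.Free.chooseBasis C B
  haveI : Nonempty (Module.Free.ChooseBasisIndex C B) := b.index_nonempty
  let E := tensorBasis C A b
  have hD : Descends.{u, v} Aᵐᵒᵖ := hArt2 C (hArt1 C) Aᵐᵒᵖ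
    ((MulOpposite.opLinearEquiv C : A ≃ₗ[C] Aᵐᵒᵖ) '' G)
    (lt_of_le_of_lt Cardinal.mk_image_le hG)
    (by rw [← LinearEquiv.coe_coe, ← Submodule.map_span, hspan, Submodule.map_top,
      LinearEquiv.range])
  exact ext_main hFilter hClass hCard hNo hR Aᵐᵒᵖ hD _ (inclOp C A B) E.injective _ E T hT P hP

end Pool.Agent.Helper78.SD
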